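import Pool.Agent.Helper905_HF.TorusGroup

/-!
# The braid groups and the homomorphisms from the torus knot groups
-/

set_option autoImplicit false

namespace Pool.Agent.Helper905_HF

section abstractly

variable {G : Type} [Group G] (s : ℕ → G)

/-- the product `s_a s_(a+1) ⋯ s_(a+k-1)` -/
def DD (a k : ℕ) : G := ((List.range' a k).map s).prod

@[simp] lemma DD_zero (a : ℕ) : DD s a 0 = 1 := rfl

lemma DD_succ (a k : ℕ) : DD s a (k + 1) = s a * DD s (a + 1) k := by
  simp [DD, List.range'_succ]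

lemma DD_add (a k l : ℕ) : DD s a (k + l) = DD s a k * DD s (a + k) l := by
  rw [DD, DD, DD, ← List.prod_append, ← List.map_append, List.range'_append_1]

lemma DD_last (a k : ℕ) : DD s a (k + 1) = DD s a k * s (a + k) := by
  rw [DD_add, DD_succ, DD_zero, mul_one]

/-- The braid relations for `s_0, …, s_(n-1)`. -/
structure IsBraid (n : ℕ) : Prop where
  br : ∀ i, i + 1 < n → s i * s (i + 1) * s i = s (i + 1) * s i * s (i + 1)
  co : ∀ i j, i + 1 < j → j < n → s i * s j = s j * s i

variable {s} {n : ℕ} (h : IsBraid s n)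

include h

lemma comm_left (a k j : ℕ) (h1 : a + k < j) (h2 : j < n) : DD s a k * s j = s j * DD s a k := by
  induction k generalizing a with
  | zero => simp
  | succ k ih =>
    rw [DD_succ, mul_assoc, ih (a + 1) (by omega), ← mul_assoc, ← mul_assoc,
      h.co a j (by omega) h2]

lemma comm_right (a k i : ℕ) (h1 : i + 1 < a) (h2 : a + k ≤ n) :
    DD s a k * s i = s i * DD s a k := by
  induction k generalizing a with
  | zero => simp
  | succ k ih =>
    rw [DD_succ, mul_assoc, ih (a + 1) (by omega) (by omega), ← mul_assoc, ← mul_assoc,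
      h.co i a h1 (by omega)]

lemma delta_shift (i : ℕ) (hi : i + 1 < n) : DD s 0 n * s i = s (i + 1) * DD s 0 n := by
  obtain ⟨l, rfl⟩ : ∃ l, n = i + (1 + (1 + l)) := ⟨n - i - 2, by omega⟩
  rw [DD_add, DD_add, DD_add]
  simp only [zero_add]
  have e1 : ∀ a, DD s a 1 = s a := fun a => by simp [DD]
  rw [e1, e1]
  have hr := comm_right h (i + 1 + 1) l i (by omega) (by omega)
  have hbr := h.br i (by omega)
  by_cases hi0 : i = 0
  · subst hi0
    simp only [DD_zero, one_mul]
    calc s 0 * (s (0 + 1) * DD s (0 + 1 + 1) l) * s 0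
        = s 0 * s (0 + 1) * (DD s (0 + 1 + 1) l * s 0) := by group
      _ = s 0 * s (0 + 1) * s 0 * DD s (0 + 1 + 1) l := by rw [hr]; group
      _ = s (0 + 1) * (s 0 * (s (0 + 1) * DD s (0 + 1 + 1) l)) := by rw [hbr]; group
  · have hl := comm_left h 0 i (i + 1) (by omega) (by omega)
    calc DD s 0 i * (s i * (s (i + 1) * DD s (i + 1 + 1) l)) * s i
        = DD s 0 i * (s i * s (i + 1) * (DD s (i + 1 + 1) l * s i)) := by group
      _ = DD s 0 i * (s i * s (i + 1) * s i) * DD s (i + 1 + 1) l := by rw [hr]; group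
      _ = (DD s 0 i * s (i + 1)) * s i * s (i + 1) * DD s (i + 1 + 1) l := by rw [hbr]; group
      _ = s (i + 1) * (DD s 0 i * (s i * (s (i + 1) * DD s (i + 1 + 1) l))) := by rw [hl]; group

lemma delta_shift_DD (a k : ℕ) (hk : a + k + 1 ≤ n) :
    DD s 0 n * DD s a k = DD s (a + 1) k * DD s 0 n := by
  induction k generalizing a with
  | zero => simp
  | succ k ih =>
    rw [DD_succ, DD_succ, ← mul_assoc, delta_shift h a (by omega), mul_assoc,
      ih (a + 1) (by omega), mul_assoc]

lemma delta_pow_shift (j : ℕ) (hj : j < n) : DD s 0 n ^ j * s 0 = s j * DD s 0 n ^ j := by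
  induction j with
  | zero => simp
  | succ j ih =>
    rw [pow_succ', mul_assoc, ih (by omega), ← mul_assoc, delta_shift h j hj, mul_assoc]

lemma eps_pow (k : ℕ) (hk : k + 1 ≤ n) : (DD s 0 n * s 0) ^ k = DD s 1 k * DD s 0 n ^ k := by
  induction k with
  | zero => simp
  | succ k ih =>
    rw [pow_succ, ih (by omega), DD_last]
    have h1 := delta_pow_shift h (k + 1) (by omega)
    calc DD s 1 k * DD s 0 n ^ k * (DD s 0 n * s 0)
        = DD s 1 k * (DD s 0 n ^ (k + 1) * s 0) := by rw [pow_succ]; group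
      _ = DD s 1 k * s (1 + k) * DD s 0 n ^ (k + 1) := by
        rw [h1, add_comm k 1, mul_assoc]

/-- the two expressions for the full twist -/
lemma eps_delta (hn : 1 ≤ n) : (DD s 0 n * s 0) ^ n = DD s 0 n ^ (n + 1) := by
  obtain ⟨m, rfl⟩ : ∃ m, n = m + 1 := ⟨n - 1, by omega⟩
  have h1 := eps_pow h m le_rfl
  have h2 := delta_pow_shift h m (by omega)
  have h3 := delta_shift_DD h 0 m (by omega)
  rw [pow_succ, h1]
  calc DD s 1 m * DD s 0 (m + 1) ^ m * (DD s 0 (m + 1) * s 0)
      = DD s 1 m * DD s 0 (m + 1) * (DD s 0 (m + 1) ^ m * s 0) := by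
        have : DD s 0 (m + 1) ^ m * DD s 0 (m + 1) = DD s 0 (m + 1) * DD s 0 (m + 1) ^ m :=
          pow_mul_comm' _ _
        calc DD s 1 m * DD s 0 (m + 1) ^ m * (DD s 0 (m + 1) * s 0)
            = DD s 1 m * (DD s 0 (m + 1) ^ m * DD s 0 (m + 1)) * s 0 := by group
          _ = _ := by rw [this]; group
    _ = (DD s (0 + 1) m * DD s 0 (m + 1)) * s m * DD s 0 (m + 1) ^ m := by rw [h2]; group
    _ = DD s 0 (m + 1) * (DD s 0 m * s (0 + m)) * DD s 0 (m + 1) ^ m := by
        rw [← h3, zero_add]; group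
    _ = DD s 0 (m + 1) * DD s 0 (m + 1) * DD s 0 (m + 1) ^ m := by rw [← DD_last]
    _ = DD s 0 (m + 1) ^ (m + 1 + 1) := by
        rw [pow_succ', pow_succ', mul_assoc]

end abstractly

/-- The braid relators on the generators `σ_0, …, σ_(n-1)`. -/
def braidRel (n : ℕ) : Set (FreeGroup (Fin n)) :=
  {r | ∃ i j : Fin n,
    (i.val + 1 = j.val ∧ r = FreeGroup.of i * FreeGroup.of j * FreeGroup.of i *
      (FreeGroup.of j * FreeGroup.of i * FreeGroup.of j)⁻¹) ∨
    (i.val + 1 < j.val ∧ r = FreeGroup.of i * FreeGroup.of j *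
      (FreeGroup.of j * FreeGroup.of i)⁻¹)}

/-- The braid group on `n + 1` strands, by its Artin presentation with `n` generators. -/
abbrev Braid (n : ℕ) : Type := PresentedGroup (braidRel n)

/-- the half twist `σ_i` -/
def sigma {n : ℕ} (i : Fin n) : Braid n := PresentedGroup.of i

/-- the same, indexed by the natural numbers -/
def sg (n i : ℕ) : Braid n := if h : i < n then sigma ⟨i, h⟩ else 1

/-- the braid `δ = σ_0 σ_1 ⋯ σ_(n-1)` -/
def delta (n : ℕ) : Braid n := ((List.finRange n).map sigma).prod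

lemma sg_braid (n : ℕ) : IsBraid (sg n) n where
  br i hi := by
    have h := PresentedGroup.one_of_mem (rels := braidRel n)
      (x := FreeGroup.of ⟨i, by omega⟩ * FreeGroup.of ⟨i + 1, hi⟩ * FreeGroup.of ⟨i, by omega⟩ *
      (FreeGroup.of ⟨i + 1, hi⟩ * FreeGroup.of ⟨i, by omega⟩ * FreeGroup.of ⟨i + 1, hi⟩)⁻¹)
      ⟨⟨i, by omega⟩, ⟨i + 1, hi⟩, Or.inl ⟨rfl, rfl⟩⟩
    rw [map_mul, map_inv, mul_inv_eq_one] at h
    simp only [map_mul] at h
    rw [sg, sg, dif_pos (by omega), dif_pos hi]
    exact h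
  co i j hij hj := by
    have h := PresentedGroup.one_of_mem (rels := braidRel n)
      (x := FreeGroup.of ⟨i, by omega⟩ * FreeGroup.of ⟨j, hj⟩ *
      (FreeGroup.of ⟨j, hj⟩ * FreeGroup.of ⟨i, by omega⟩)⁻¹)
      ⟨⟨i, by omega⟩, ⟨j, hj⟩, Or.inr ⟨hij, rfl⟩⟩
    rw [map_mul, map_inv, mul_inv_eq_one] at h
    simp only [map_mul] at h
    rw [sg, sg, dif_pos (by omega), dif_pos hj]
    exact h

lemma finRange_sigma (n : ℕ) : (List.finRange n).map (sigma (n := n)) =
    (List.range' 0 n).map (sg n) := by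
  rw [← List.range_eq_range']
  apply List.ext_getElem
  · simp
  · intro i h1 h2
    simp only [List.length_map, List.length_finRange] at h1
    simp [sg, h1]

lemma delta_eq (n : ℕ) : delta n = DD (sg n) 0 n := by
  rw [delta, finRange_sigma, DD]

lemma delta_eps {n : ℕ} (hn : 1 ≤ n) : (delta n * sg n 0) ^ n = delta n ^ (n + 1) := by
  rw [delta_eq]
  exact eps_delta (sg_braid n) hn

/-- The homomorphism from the torus knot group of type `(n + 1, n)` to the braid group on
`n + 1` strands given by `x ↦ δ⁻¹` and `y ↦ δ σ_0`. -/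
def rho (n : ℕ) (hn : 1 ≤ n) : TorusGroup n →* Braid n :=
  PresentedGroup.toGroup (rels := torusRel n)
    (f := fun c => if c then (delta n)⁻¹ else delta n * sigma ⟨0, hn⟩) (by
    intro r hr
    rw [torusRel, Set.mem_singleton_iff] at hr
    subst hr
    simp only [map_mul, map_pow, FreeGroup.lift_apply_of, if_true, Bool.false_eq_true, if_false]
    have h := delta_eps hn
    rw [sg, dif_pos (show 0 < n from hn)] at h
    rw [h, inv_pow, inv_mul_cancel])

lemma rho_x (n : ℕ) (hn : 1 ≤ n) : rho n hn (tx n) = (delta n)⁻¹ := by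
  rw [rho, tx, PresentedGroup.toGroup.of]
  simp

lemma rho_y (n : ℕ) (hn : 1 ≤ n) : rho n hn (ty n) = delta n * sigma ⟨0, hn⟩ := by
  rw [rho, ty, PresentedGroup.toGroup.of]
  simp

lemma rho_xy (n : ℕ) (hn : 1 ≤ n) : rho n hn (tx n * ty n) = sigma ⟨0, hn⟩ := by
  rw [map_mul, rho_x, rho_y, inv_mul_cancel_left]

/-- the lifts of the generators -/
def mer (q j : ℕ) : TorusGroup q := (tx q)⁻¹ ^ j * (tx q * ty q) * ((tx q)⁻¹ ^ j)⁻¹

lemma rho_mer (n : ℕ) (hn : 1 ≤ n) (j : ℕ) (hj : j < n) : rho n hn (mer n j) = sg n j := by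
  rw [mer, map_mul, map_mul, map_inv, map_pow, map_inv, rho_x, rho_xy, inv_inv, delta_eq]
  have h := delta_pow_shift (sg_braid n) j hj
  rw [sg, dif_pos (show 0 < n from hn)] at h
  rw [h, mul_inv_cancel_right]

lemma mer_prod (q k : ℕ) : ((List.range' 0 k).map (mer q)).prod =
    tx q * ty q ^ k * tx q ^ k * (tx q)⁻¹ := by
  induction k with
  | zero => simp
  | succ k ih =>
    rw [List.range'_concat, List.map_append, List.prod_append, ih]
    simp only [zero_add, one_mul, List.map_cons, List.map_nil, List.prod_cons, List.prod_nil,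
      mul_one, mer]
    rw [pow_succ (ty q), pow_succ (tx q), inv_pow]
    group

/-- the standard tuple of meridians -/
def stdK (q m : ℕ) : List (TorusGroup q) :=
  (List.replicate ((q + 1) * m) ((List.range' 0 q).map (mer q))).flatten

lemma stdK_mer (q m : ℕ) : Meridians q (stdK q m) := by
  intro t ht
  rw [stdK, List.mem_flatten] at ht
  obtain ⟨l, hl, ht⟩ := ht
  rw [List.eq_of_mem_replicate hl, List.mem_map] at ht
  obtain ⟨j, _, rfl⟩ := ht
  exact ⟨(tx q)⁻¹ ^ j, rfl⟩

lemma stdK_prod (q m : ℕ) : (stdK q m).prod = (tx q ^ (q + 1)) ^ (-(m : ℤ)) := by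
  have h1 : ((List.range' 0 q).map (mer q)).prod = (tx q)⁻¹ := by
    rw [mer_prod]
    have h2 : ty q ^ q = (tx q ^ (q + 1))⁻¹ := by
      rw [eq_inv_iff_mul_eq_one, mul_eq_one_comm]; exact txy q
    rw [h2, pow_succ']
    group
  rw [stdK, List.prod_flatten, List.map_replicate, h1, List.prod_replicate, pow_mul, inv_pow,
    zpow_neg, zpow_natCast, inv_pow]

/-- the standard factorization `(σ_0, …, σ_(n-1))` repeated `(n + 1) m` times -/
def stdB (n m : ℕ) : List (Braid n) :=
  (List.replicate ((n + 1) * m) ((List.finRange n).map sigma)).flatten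

lemma rho_std (n : ℕ) (hn : 1 ≤ n) (m : ℕ) : (stdK n m).map (rho n hn) = stdB n m := by
  rw [stdK, stdB, List.map_flatten, List.map_replicate]
  congr 2
  rw [List.map_map, finRange_sigma]
  apply List.map_congr_left
  intro j hj
  rw [List.mem_range'] at hj
  obtain ⟨i, hi, rfl⟩ := hj
  exact rho_mer n hn _ (by omega)

/-- **Liftable half twist factorizations of the powers of the full twist are standard.** -/
theorem braid_std {q : ℕ} (hq : 2 ≤ q) (m : ℕ) (T : List (TorusGroup q)) (hT : Meridians q T)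
    (hprod : T.prod = (tx q ^ (q + 1)) ^ (-(m : ℤ))) :
    HurwitzEquiv (T.map (rho q (by omega))) (stdB q m) := by
  rw [← rho_std]
  exact HE.map_hom _ (torus_unique hq _ _ _ hT (stdK_mer q m) hprod (stdK_prod q m))

end Pool.Agent.Helper905_HF
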