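import Pool.Agent.Helper905_HF.HE

/-!
# Planar diagrams for tuples of conjugates of relators
-/

set_option autoImplicit false

namespace Pool.Agent.Helper905_HF

variable {α : Type} {G : Type} [Group G]

/-- the inverse letter -/
def li (a : α × Bool) : α × Bool := (a.1, !a.2)

@[simp] lemma li_li (a : α × Bool) : li (li a) = a := by simp [li]

/-- the value of a word -/
def ev (f : α × Bool → G) (w : List (α × Bool)) : G := (w.map f).prod

@[simp] lemma ev_nil (f : α × Bool → G) : ev f [] = 1 := rfl

@[simp] lemma ev_cons (f : α × Bool → G) (a : α × Bool) (w : List (α × Bool)) :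
    ev f (a :: w) = f a * ev f w := by simp [ev]

@[simp] lemma ev_append (f : α × Bool → G) (v w : List (α × Bool)) :
    ev f (v ++ w) = ev f v * ev f w := by simp [ev]

/-- The letter `a`, at a position with prefix of value `g`, is adjacent to a face. -/
def Thick (f : α × Bool → G) (R : Set (List (α × Bool))) (T : List G) (g : G) (a : α × Bool) :
    Prop :=
  ∃ (ρ : List (α × Bool)) (T'' : List G), (a :: ρ) ∈ R ∧
    HurwitzEquiv T (cj g (ev f (a :: ρ)) :: T'')

/-- `Diag f R T w`: a tuple `T` of faces fills the boundary word `w`. -/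
inductive Diag (f : α × Bool → G) (R : Set (List (α × Bool))) :
    List G → List (α × Bool) → Prop
  | core (T : List G) (w : List (α × Bool)) (hprod : T.prod = ev f w)
      (h : ∀ A a C, w = A ++ a :: C → Thick f R T (ev f A) a) : Diag f R T w
  | thin (T T₁ T₂ : List G) (A : List (α × Bool)) (a : α × Bool) (B C : List (α × Bool))
      (h₁ : Diag f R T₁ B) (h₂ : Diag f R T₂ (A ++ C))
      (he : HurwitzEquiv T (T₁.map (cj (ev f A * f a)) ++ T₂)) :
      Diag f R T (A ++ a :: (B ++ li a :: C))

variable {f : α × Bool → G} {R : Set (List (α × Bool))}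

lemma Thick.he {T T' : List G} {g : G} {a : α × Bool} (h : Thick f R T g a)
    (he : HurwitzEquiv T' T) : Thick f R T' g a := by
  obtain ⟨ρ, T'', h1, h2⟩ := h
  exact ⟨ρ, T'', h1, HE.trans he h2⟩

lemma Thick.append_right {T : List G} {g : G} {a : α × Bool} (h : Thick f R T g a) (S : List G) :
    Thick f R (T ++ S) g a := by
  obtain ⟨ρ, T'', h1, h2⟩ := h
  exact ⟨ρ, T'' ++ S, h1, HE.append_right S h2⟩

lemma Thick.append_left {S : List G} {g : G} {a : α × Bool} (h : Thick f R S g a) (T : List G) :
    Thick f R (T ++ S) (T.prod * g) a := by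
  obtain ⟨ρ, S'', h1, h2⟩ := h
  refine ⟨ρ, T ++ S'', h1, ?_⟩
  refine HE.trans (HE.append_left T h2) ?_
  have := HE.append_right S'' (HE.block T [cj g (ev f (a :: ρ))])
  simpa [cj_mul] using this

lemma Thick.append_left' {S : List G} {g : G} {a : α × Bool} (h : Thick f R S g a) (T : List G) :
    Thick f R (T ++ S) g a := by
  obtain ⟨ρ, S'', h1, h2⟩ := h
  refine ⟨ρ, T.map (cj (cj g (ev f (a :: ρ)))⁻¹) ++ S'', h1, ?_⟩
  refine HE.trans (HE.append_left T h2) ?_
  have := HE.append_right S'' (HE.block' T [cj g (ev f (a :: ρ))])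
  simpa using this

lemma Thick.map_cj {T : List G} {g : G} {a : α × Bool} (h : Thick f R T g a) (k : G) :
    Thick f R (T.map (cj k)) (k * g) a := by
  obtain ⟨ρ, T'', h1, h2⟩ := h
  refine ⟨ρ, T''.map (cj k), h1, ?_⟩
  have := HE.map_cj k h2
  rw [List.map_cons, cj_mul] at this
  exact this

lemma Thick.twist {T : List G} {g : G} {a : α × Bool} (h : Thick f R T g a) :
    Thick f R T (T.prod * g) a := by
  obtain ⟨ρ, T'', h1, h2⟩ := h
  refine ⟨ρ, T''.map (cj T.prod), h1, ?_⟩
  have h3 := HE.full_twist (cj g (ev f (a :: ρ)) :: T'')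
  rw [← HE.prod_eq h2, List.map_cons, cj_mul] at h3
  exact HE.trans h2 h3

lemma Diag.he {T T' : List G} {w : List (α × Bool)} (h : Diag f R T w)
    (he : HurwitzEquiv T' T) : Diag f R T' w := by
  cases h with
  | core _ _ hprod h =>
    exact Diag.core _ _ ((HE.prod_eq he).trans hprod) (fun A a C hw => (h A a C hw).he he)
  | thin _ T₁ T₂ A a B C h₁ h₂ he' => exact Diag.thin _ T₁ T₂ A a B C h₁ h₂ (HE.trans he he')

lemma Diag.prod_eq (hf : ∀ a, f (li a) = (f a)⁻¹) {T : List G} {w : List (α × Bool)}
    (h : Diag f R T w) : T.prod = ev f w := by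
  induction h with
  | core T w hprod h => exact hprod
  | thin T T₁ T₂ A a B C h₁ h₂ he ih₁ ih₂ =>
    rw [HE.prod_eq he, List.prod_append, prod_map_cj, ih₁, ih₂]
    simp only [ev_append, ev_cons, hf, cj]
    group

lemma diag_nil {T : List G} (h : T.prod = 1) : Diag f R T [] :=
  Diag.core _ _ h (fun A a C hw => by simp at hw)

/-- splitting a word of the shape `A' b B' b' C'` -/
lemma split3 {β : Type} {A C A' B' C' : List β} {b b' : β}
    (h : A' ++ b :: (B' ++ b' :: C') = A ++ C) :
    (∃ A₁, A' = A ++ A₁ ∧ C = A₁ ++ b :: (B' ++ b' :: C')) ∨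
    (∃ B₁ B₂, B' = B₁ ++ B₂ ∧ A = A' ++ b :: B₁ ∧ C = B₂ ++ b' :: C') ∨
    (∃ C₁, A = A' ++ b :: (B' ++ b' :: C₁) ∧ C' = C₁ ++ C) := by
  rcases List.append_eq_append_iff.1 h with ⟨as, h1, h2⟩ | ⟨cs, h1, h2⟩
  · -- `A = A' ++ as`, `b :: ... = as ++ C`
    cases as with
    | nil =>
      left
      refine ⟨[], by simpa using h1.symm, by simpa using h2.symm⟩
    | cons x as =>
      rw [List.cons_append, List.cons.injEq] at h2
      obtain ⟨rfl, h2⟩ := h2
      rcases List.append_eq_append_iff.1 h2 with ⟨as', h3, h4⟩ | ⟨cs', h3, h4⟩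
      · cases as' with
        | nil =>
          right; left
          refine ⟨B', [], by simp, by rw [h1, h3]; simp, by simpa using h4.symm⟩
        | cons y as' =>
          rw [List.cons_append, List.cons.injEq] at h4
          obtain ⟨rfl, h4⟩ := h4
          right; right
          exact ⟨as', by rw [h1, h3], h4⟩
      · right; left
        exact ⟨as, cs', h3, h1, h4⟩
  · left
    exact ⟨cs, h1, h2⟩

/-- positions in a concatenation -/
lemma split2 {β : Type} {A C A' C' : List β} {a : β} (h : A ++ C = A' ++ a :: C') :
    (∃ D, A = A' ++ a :: D ∧ C' = D ++ C) ∨ (∃ D, A' = A ++ D ∧ C = D ++ a :: C') := by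
  rcases List.append_eq_append_iff.1 h with ⟨as, h1, h2⟩ | ⟨cs, h1, h2⟩
  · right
    exact ⟨as, h1, h2⟩
  · cases cs with
    | nil =>
      right
      refine ⟨[], by simpa using h1.symm, by simpa using h2.symm⟩
    | cons x cs =>
      rw [List.cons_append, List.cons.injEq] at h2
      obtain ⟨rfl, h2⟩ := h2
      left
      exact ⟨cs, h1, h2⟩

/-- inserting a diagram at a vertex of the boundary of another one -/
theorem Diag.insert (hf : ∀ a, f (li a) = (f a)⁻¹) {T₂ : List G} {W : List (α × Bool)}
    (h₂ : Diag f R T₂ W) : ∀ (A C : List (α × Bool)), W = A ++ C →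
      ∀ (T₁ : List G) (B : List (α × Bool)), Diag f R T₁ B →
      Diag f R (T₁.map (cj (ev f A)) ++ T₂) (A ++ (B ++ C)) := by
  induction h₂ with
  | core T₂ W hprod h =>
    intro A C hW T₁ B h₁
    induction h₁ with
    | core T₁ B hprod₁ h₁ =>
      apply Diag.core
      · rw [List.prod_append, prod_map_cj, hprod, hprod₁, hW]
        simp only [ev_append, cj]
        group
      · intro A' a C' hw
        rcases split2 hw with ⟨D, h1, h2⟩ | ⟨D, h1, h2⟩
        · have := h A' a (D ++ C) (by rw [hW, h1]; simp)
          exact this.append_left' _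
        · rcases split2 h2 with ⟨E, h3, h4⟩ | ⟨E, h3, h4⟩
          · have := ((h₁ D a E h3).map_cj (ev f A)).append_right T₂
            rw [h1, ev_append]
            exact this
          · have h5 := h (A ++ E) a C' (by rw [hW, h4]; simp)
            have h6 := h5.append_left (T₁.map (cj (ev f A)))
            rw [prod_map_cj, hprod₁] at h6
            have e : cj (ev f A) (ev f B) * ev f (A ++ E) = ev f A' := by
              rw [h1, h3]
              simp only [ev_append, cj]
              group
            rw [e] at h6
            exact h6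
    | thin T₁ S₁ S₂ A' b B' C' k₁ k₂ he ih₁ ih₂ =>
      have h1 := Diag.thin (f := f) (R := R) (T₁.map (cj (ev f A)) ++ T₂) S₁
        (S₂.map (cj (ev f A)) ++ T₂) (A ++ A') b B' (C' ++ C) k₁ (by simpa using ih₂) (by
          have h2 := HE.append_right T₂ (HE.map_cj (ev f A) he)
          rw [List.map_append, map_cj_cj, List.append_assoc] at h2
          rw [ev_append, mul_assoc]
          exact h2)
      simpa using h1
  | thin T₂ S₁ S₂ A' b B' C' k₁ k₂ he ih₁ ih₂ =>
    intro A C hW T₁ B h₁
    rcases split3 hW with ⟨A₁, e1, e2⟩ | ⟨B₁, B₂, e1, e2, e3⟩ | ⟨C₁, e1, e2⟩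
    · -- insertion in `A'`
      have h3 := ih₂ A (A₁ ++ C') (by rw [e1]; simp) T₁ B h₁
      have h1 := Diag.thin (f := f) (R := R) (T₁.map (cj (ev f A)) ++ T₂) S₁
        (T₁.map (cj (ev f A)) ++ S₂) (A ++ (B ++ A₁)) b B' C' k₁ (by simpa using h3) (by
          refine HE.trans (HE.append_left _ he) ?_
          have h2 := HE.append_right S₂ (HE.block (T₁.map (cj (ev f A)))
            (S₁.map (cj (ev f A' * f b))))
          rw [prod_map_cj, h₁.prod_eq hf, map_cj_cj, List.append_assoc, List.append_assoc] at h2
          have e : cj (ev f A) (ev f B) * (ev f A' * f b) = ev f (A ++ (B ++ A₁)) * f b := by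
            rw [e1]
            simp only [ev_append, cj]
            group
          rw [e] at h2
          exact h2)
      rw [e2]
      simpa using h1
    · -- insertion in `B'`
      have h3 := ih₁ B₁ B₂ e1 T₁ B h₁
      have h1 := Diag.thin (f := f) (R := R) (T₁.map (cj (ev f A)) ++ T₂)
        (T₁.map (cj (ev f B₁)) ++ S₁) S₂ A' b (B₁ ++ (B ++ B₂)) C' h3 k₂ (by
          refine HE.trans (HE.append_left _ he) ?_
          apply HE.of_eq
          rw [List.map_append, map_cj_cj, List.append_assoc]
          congr 2
          rw [e2]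
          simp only [ev_append, ev_cons]
          group)
      have ew : A ++ (B ++ C) = A' ++ b :: ((B₁ ++ (B ++ B₂)) ++ li b :: C') := by
        rw [e2, e3]; simp
      rw [ew]
      exact h1
    · -- insertion in `C'`
      have h3 := ih₂ (A' ++ C₁) C (by rw [e2]; simp) T₁ B h₁
      have h1 := Diag.thin (f := f) (R := R) (T₁.map (cj (ev f A)) ++ T₂) S₁
        (T₁.map (cj (ev f (A' ++ C₁))) ++ S₂) A' b B' (C₁ ++ (B ++ C)) k₁ (by simpa using h3) (by
          refine HE.trans (HE.append_left _ he) ?_
          have h2 := HE.append_right S₂ (HE.block' (T₁.map (cj (ev f A)))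
            (S₁.map (cj (ev f A' * f b))))
          rw [prod_map_cj, k₁.prod_eq hf, map_cj_cj, List.append_assoc, List.append_assoc] at h2
          have e : (cj (ev f A' * f b) (ev f B'))⁻¹ * ev f A = ev f (A' ++ C₁) := by
            rw [e1]
            simp only [ev_append, ev_cons, cj, hf]
            group
          rw [e] at h2
          exact h2)
      have ew : A ++ (B ++ C) = A' ++ b :: (B' ++ li b :: (C₁ ++ (B ++ C))) := by
        rw [e1]; simp
      rw [ew]
      exact h1

/-- rotation of the boundary word by one letter -/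
theorem Diag.rot (hf : ∀ a, f (li a) = (f a)⁻¹) {T : List G} {W : List (α × Bool)}
    (h : Diag f R T W) : ∀ (x : α × Bool) (B : List (α × Bool)), W = x :: B →
      Diag f R (T.map (cj (f x)⁻¹)) (B ++ [x]) := by
  induction h with
  | core T W hprod h =>
    intro x B hW
    apply Diag.core
    · rw [prod_map_cj, hprod, hW]
      simp only [ev_append, ev_cons, ev_nil, cj]
      group
    · intro A' a C' hw
      rcases split2 hw with ⟨D, h1, h2⟩ | ⟨D, h1, h2⟩
      · have h3 := (h (x :: A') a D (by rw [hW, h1]; simp)).map_cj (f x)⁻¹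
        rw [ev_cons, inv_mul_cancel_left] at h3
        exact h3
      · have h3 : D = [] ∧ x = a ∧ C' = [] := by
          cases D with
          | nil => simpa using h2
          | cons y D => simp at h2
        obtain ⟨rfl, rfl, rfl⟩ := h3
        have h4 := ((h [] x B (by rw [hW]; simp)).map_cj (f x)⁻¹).twist
        rw [prod_map_cj, hprod, hW] at h4
        have e : cj (f x)⁻¹ (ev f (x :: B)) * ((f x)⁻¹ * ev f []) = ev f A' := by
          rw [h1]
          simp only [ev_cons, ev_nil, cj, List.append_nil]
          group
        rw [e] at h4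
        exact h4
  | thin T T₁ T₂ A b B₀ C k₁ k₂ he ih₁ ih₂ =>
    intro x B hW
    have he' := HE.map_cj (f x)⁻¹ he
    rw [List.map_append, map_cj_cj] at he'
    cases A with
    | nil =>
      rw [List.nil_append, List.cons.injEq] at hW
      obtain ⟨rfl, rfl⟩ := hW
      have h1 := Diag.thin (f := f) (R := R) (T.map (cj (f b)⁻¹)) T₂ T₁ B₀ (li b) C []
        (by simpa using k₂) (by simpa using k₁) (by
          refine HE.trans he' ?_
          have h2 := HE.block (T₁.map (cj ((f b)⁻¹ * (ev f [] * f b)))) (T₂.map (cj (f b)⁻¹))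
          rw [ev_nil, one_mul, inv_mul_cancel, map_cj_one] at h2 ⊢
          rw [map_cj_cj, k₁.prod_eq hf] at h2
          rw [hf]
          exact h2)
      simpa using h1
    | cons y A =>
      rw [List.cons_append, List.cons.injEq] at hW
      obtain ⟨rfl, rfl⟩ := hW
      have h3 := ih₂ y (A ++ C) (by simp)
      have h1 := Diag.thin (f := f) (R := R) (T.map (cj (f y)⁻¹)) T₁ (T₂.map (cj (f y)⁻¹)) A b
        B₀ (C ++ [y]) k₁ (by simpa using h3) (by
          have e : (f y)⁻¹ * (ev f (y :: A) * f b) = ev f A * f b := by
            rw [ev_cons]; group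
          rw [e] at he'
          exact he')
      simpa using h1

/-- rotation of the boundary word -/
theorem Diag.rotN (hf : ∀ a, f (li a) = (f a)⁻¹) (U : List (α × Bool)) :
    ∀ (T : List G) (V : List (α × Bool)), Diag f R T (U ++ V) →
      Diag f R (T.map (cj (ev f U)⁻¹)) (V ++ U) := by
  induction U with
  | nil =>
    intro T V h
    rw [ev_nil, inv_one, map_cj_one]
    simpa using h
  | cons x U ih =>
    intro T V h
    have h1 := h.rot hf x (U ++ V) (by simp)
    have h2 := ih _ (V ++ [x]) (by simpa using h1)
    rw [map_cj_cj] at h2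
    rw [ev_cons, mul_inv_rev]
    simpa using h2

/-- rotation in the other direction -/
theorem Diag.rotLast (hf : ∀ a, f (li a) = (f a)⁻¹) {T : List G} {B : List (α × Bool)}
    {x : α × Bool} (h : Diag f R T (B ++ [x])) : Diag f R (T.map (cj (f x))) (x :: B) := by
  have h1 := Diag.rotN hf B T [x] h
  rw [List.singleton_append] at h1
  refine h1.he ?_
  have h2 := HE.full_twist (T.map (cj (ev f B)⁻¹))
  rw [h1.prod_eq hf, map_cj_cj, ev_cons, mul_assoc, mul_inv_cancel, mul_one] at h2
  exact HE.symm h2

/-- **Folding.** -/
theorem Diag.fold (hf : ∀ a, f (li a) = (f a)⁻¹) {T : List G} {W : List (α × Bool)}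
    (h : Diag f R T W) : ∀ (A : List (α × Bool)) (a : α × Bool) (C : List (α × Bool)),
      W = A ++ a :: li a :: C → Diag f R T (A ++ C) := by
  induction h with
  | core T W hprod h =>
    intro A a C hW
    apply Diag.core
    · rw [hprod, hW]
      simp only [ev_append, ev_cons, hf]
      group
    · intro A' b C' hw
      rcases split2 hw with ⟨D, h1, h2⟩ | ⟨D, h1, h2⟩
      · exact h A' b (D ++ a :: li a :: C) (by rw [hW, h1]; simp)
      · have h3 := h (A ++ a :: li a :: D) b C' (by rw [hW, h2]; simp)
        have e : ev f (A ++ a :: li a :: D) = ev f A' := by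
          rw [h1]
          simp only [ev_append, ev_cons, hf]
          group
        rw [e] at h3
        exact h3
  | thin T T₁ T₂ A₀ b B₀ C₀ k₁ k₂ he ih₁ ih₂ =>
    intro A a C hW
    rcases split3 hW with ⟨A₁, e1, e2⟩ | ⟨B₁, B₂, e1, e2, e3⟩ | ⟨C₁, e1, e2⟩
    · cases A₁ with
      | nil =>
        rw [List.nil_append, List.cons.injEq] at e2
        obtain ⟨rfl, e2⟩ := e2
        rw [List.append_nil] at e1
        subst e1
        cases B₀ with
        | nil =>
          rw [List.nil_append, List.cons.injEq] at e2
          obtain ⟨-, rfl⟩ := e2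
          have h1 : Diag f R (T₁.map (cj (f a))) [] := by
            apply diag_nil
            rw [prod_map_cj, k₁.prod_eq hf]
            simp [cj]
          have h2 := k₂.insert hf A₀ C rfl _ _ h1
          rw [map_cj_cj] at h2
          exact h2.he he
        | cons y B₁ =>
          rw [List.cons_append, List.cons.injEq] at e2
          obtain ⟨e3, rfl⟩ := e2
          subst e3
          have h1 := k₁.rot hf (li a) B₁ rfl
          rw [hf, inv_inv] at h1
          have h2 := k₂.insert hf A₀ C₀ rfl _ _ h1
          rw [map_cj_cj] at h2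
          have h3 := h2.he he
          simpa using h3
      | cons y A₂ =>
        rw [List.cons_append, List.cons.injEq] at e2
        obtain ⟨rfl, e2⟩ := e2
        cases A₂ with
        | nil =>
          rw [List.nil_append, List.cons.injEq] at e2
          obtain ⟨rfl, rfl⟩ := e2
          subst e1
          have h2 := k₂.insert hf A (a :: C₀) (by simp) _ _ k₁
          have e : ev f (A ++ [a]) * f (li a) = ev f A := by
            simp only [ev_append, ev_cons, ev_nil, hf]
            group
          rw [e] at he
          have h3 := h2.he he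
          simpa using h3
        | cons z A₃ =>
          rw [List.cons_append, List.cons.injEq] at e2
          obtain ⟨rfl, rfl⟩ := e2
          subst e1
          have h1 := ih₂ A a (A₃ ++ C₀) (by simp)
          have e : ev f (A ++ a :: li a :: A₃) = ev f (A ++ A₃) := by
            simp only [ev_append, ev_cons, hf]
            group
          rw [e] at he
          have h2 := Diag.thin (f := f) (R := R) T T₁ T₂ (A ++ A₃) b B₀ C₀ k₁
            (by simpa using h1) he
          simpa using h2
    · cases B₂ with
      | nil =>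
        rw [List.nil_append, List.cons.injEq] at e3
        obtain ⟨rfl, rfl⟩ := e3
        rw [List.append_nil] at e1
        subst e1
        subst e2
        have h1 := k₂.insert hf (A₀ ++ [b]) C (by simp) _ _ k₁
        have e : ev f (A₀ ++ [b]) = ev f A₀ * f b := by
          simp
        rw [e] at h1
        have h2 := h1.he he
        simpa using h2
      | cons y B₃ =>
        rw [List.cons_append, List.cons.injEq] at e3
        obtain ⟨rfl, e3⟩ := e3
        cases B₃ with
        | nil =>
          rw [List.nil_append, List.cons.injEq] at e3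
          obtain ⟨e4, rfl⟩ := e3
          have e5 : a = b := by
            have := congrArg li e4
            simpa using this
          subst e5
          subst e1
          subst e2
          have h1 := k₁.rotLast hf
          have h2 := k₂.insert hf A₀ C rfl _ _ h1
          rw [map_cj_cj] at h2
          have h3 := h2.he he
          simpa using h3
        | cons z B₄ =>
          rw [List.cons_append, List.cons.injEq] at e3
          obtain ⟨rfl, rfl⟩ := e3
          subst e1
          subst e2
          have h1 := ih₁ B₁ a B₄ rfl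
          have h2 := Diag.thin (f := f) (R := R) T T₁ T₂ A₀ b (B₁ ++ B₄) C₀ h1 k₂ he
          simpa using h2
    · subst e1
      subst e2
      have h1 := ih₂ (A₀ ++ C₁) a C (by simp)
      have h2 := Diag.thin (f := f) (R := R) T T₁ T₂ A₀ b B₀ (C₁ ++ C) k₁ (by simpa using h1) he
      simpa using h2

/-- **Peeling.** -/
theorem Diag.peel (hf : ∀ a, f (li a) = (f a)⁻¹) {T : List G} {W : List (α × Bool)}
    (h : Diag f R T W) : ∀ (A : List (α × Bool)) (a : α × Bool) (C : List (α × Bool)),
      W = A ++ a :: C → li a ∉ W → Thick f R T (ev f A) a := by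
  induction h with
  | core T W hprod h => exact fun A a C hW _ => h A a C hW
  | thin T T₁ T₂ A₀ b B₀ C₀ k₁ k₂ he ih₁ ih₂ =>
    intro A a C hW hna
    have hna' := hna
    simp only [List.mem_append, List.mem_cons, not_or] at hna
    rcases split3 hW with ⟨A₁, e1, e2⟩ | ⟨B₁, B₂, e1, e2, e3⟩ | ⟨C₁, e1, e2⟩
    · cases A₁ with
      | nil =>
        rw [List.nil_append, List.cons.injEq] at e2
        obtain ⟨rfl, -⟩ := e2
        exact absurd rfl hna.2.2.2.1
      | cons y A₂ =>
        rw [List.cons_append, List.cons.injEq] at e2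
        obtain ⟨rfl, -⟩ := e2
        subst e1
        have h1 := ih₂ A a (A₂ ++ C₀) (by simp) (by
          intro hmem
          apply hna'
          simp only [List.mem_append, List.mem_cons] at hmem ⊢
          tauto)
        exact (h1.append_left' _).he he
    · cases B₂ with
      | nil =>
        rw [List.nil_append, List.cons.injEq] at e3
        obtain ⟨rfl, -⟩ := e3
        exact absurd (by simp) hna.2.1
      | cons y B₃ =>
        rw [List.cons_append, List.cons.injEq] at e3
        obtain ⟨rfl, -⟩ := e3
        subst e1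
        subst e2
        have h1 := ih₁ B₁ a B₃ rfl hna.2.2.1
        have h2 := ((h1.map_cj (ev f A₀ * f b)).append_right T₂).he he
        have e : ev f A₀ * f b * ev f B₁ = ev f (A₀ ++ b :: B₁) := by
          simp [mul_assoc]
        rw [e] at h2
        exact h2
    · subst e1
      subst e2
      have h1 := ih₂ (A₀ ++ C₁) a C (by simp) (by
        intro hmem
        apply hna'
        simp only [List.mem_append, List.mem_cons] at hmem ⊢
        tauto)
      have h2 := (h1.append_left (T₁.map (cj (ev f A₀ * f b)))).he he
      rw [prod_map_cj, k₁.prod_eq hf] at h2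
      have e : cj (ev f A₀ * f b) (ev f B₀) * ev f (A₀ ++ C₁) =
          ev f (A₀ ++ b :: (B₀ ++ li b :: C₁)) := by
        simp only [ev_append, ev_cons, hf, cj]
        group
      rw [e] at h2
      exact h2

end Pool.Agent.Helper905_HF
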