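import Mathlib

/-!
# Hurwitz equivalence of tuples of group elements
-/

set_option autoImplicit false

namespace Pool.Agent.Helper905_HF

variable {G : Type} [Group G]

/-- One Hurwitz move `(…, a, b, …) ↦ (…, a b a⁻¹, a, …)`. -/
def HStep (T T' : List G) : Prop :=
  ∃ (U V : List G) (a b : G), T = U ++ a :: b :: V ∧ T' = U ++ (a * b * a⁻¹) :: a :: V

/-- Hurwitz equivalence: the equivalence relation generated by the Hurwitz moves. -/
def HurwitzEquiv : List G → List G → Prop := Relation.EqvGen HStep

/-- conjugation by `g` -/
def cj (g : G) (x : G) : G := g * x * g⁻¹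

lemma cj_mul (g h x : G) : cj g (cj h x) = cj (g * h) x := by
  simp only [cj]; group

lemma cj_one (x : G) : cj 1 x = x := by simp [cj]

lemma cj_comp (g h : G) : cj g ∘ cj h = cj (g * h) := by
  funext x; exact cj_mul g h x

lemma map_cj_cj (g h : G) (T : List G) : (T.map (cj h)).map (cj g) = T.map (cj (g * h)) := by
  rw [List.map_map, cj_comp]

lemma map_cj_one (T : List G) : T.map (cj 1) = T := by
  have : (cj 1 : G → G) = id := by funext x; simp [cj]
  rw [this, List.map_id]

lemma prod_map_cj (g : G) (T : List G) : (T.map (cj g)).prod = cj g T.prod := by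
  induction T with
  | nil => simp [cj]
  | cons a T ih =>
    rw [List.map_cons, List.prod_cons, ih, List.prod_cons]
    simp only [cj]; group

namespace HE

lemma refl (T : List G) : HurwitzEquiv T T := Relation.EqvGen.refl _

lemma of_eq {T T' : List G} (h : T = T') : HurwitzEquiv T T' := h ▸ refl T

lemma symm {T T' : List G} (h : HurwitzEquiv T T') : HurwitzEquiv T' T :=
  Relation.EqvGen.symm _ _ h

lemma trans {T T' T'' : List G} (h : HurwitzEquiv T T') (h' : HurwitzEquiv T' T'') :
    HurwitzEquiv T T'' := Relation.EqvGen.trans _ _ _ h h'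

lemma append (U V : List G) {T T' : List G} (h : HurwitzEquiv T T') :
    HurwitzEquiv (U ++ (T ++ V)) (U ++ (T' ++ V)) := by
  induction h with
  | rel T T' h =>
    obtain ⟨A, B, a, b, rfl, rfl⟩ := h
    apply Relation.EqvGen.rel
    exact ⟨U ++ A, B ++ V, a, b, by simp, by simp⟩
  | refl T => exact refl _
  | symm T T' _ ih => exact symm ih
  | trans T T' T'' _ _ ih1 ih2 => exact trans ih1 ih2

lemma append_right (V : List G) {T T' : List G} (h : HurwitzEquiv T T') :
    HurwitzEquiv (T ++ V) (T' ++ V) := by simpa using append [] V h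

lemma append_left (U : List G) {T T' : List G} (h : HurwitzEquiv T T') :
    HurwitzEquiv (U ++ T) (U ++ T') := by simpa using append U [] h

lemma cons (a : G) {T T' : List G} (h : HurwitzEquiv T T') :
    HurwitzEquiv (a :: T) (a :: T') := append_left [a] h

lemma append_both {S S' T T' : List G} (h : HurwitzEquiv S S') (h' : HurwitzEquiv T T') :
    HurwitzEquiv (S ++ T) (S' ++ T') := trans (append_right T h) (append_left S' h')

lemma prod_eq {T T' : List G} (h : HurwitzEquiv T T') : T.prod = T'.prod := by
  induction h with
  | rel T T' h =>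
    obtain ⟨A, B, a, b, rfl, rfl⟩ := h
    simp [mul_assoc]
  | refl T => rfl
  | symm T T' _ ih => exact ih.symm
  | trans T T' T'' _ _ ih1 ih2 => exact ih1.trans ih2

lemma length_eq {T T' : List G} (h : HurwitzEquiv T T') : T.length = T'.length := by
  induction h with
  | rel T T' h =>
    obtain ⟨A, B, a, b, rfl, rfl⟩ := h
    simp
  | refl T => rfl
  | symm T T' _ ih => exact ih.symm
  | trans T T' T'' _ _ ih1 ih2 => exact ih1.trans ih2

/-- images under homomorphisms -/
lemma map_hom {K : Type} [Group K] (φ : G →* K) {T T' : List G} (h : HurwitzEquiv T T') :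
    HurwitzEquiv (T.map φ) (T'.map φ) := by
  induction h with
  | rel T T' h =>
    obtain ⟨A, B, a, b, rfl, rfl⟩ := h
    apply Relation.EqvGen.rel
    exact ⟨A.map φ, B.map φ, φ a, φ b, by simp, by simp⟩
  | refl T => exact refl _
  | symm T T' _ ih => exact symm ih
  | trans T T' T'' _ _ ih1 ih2 => exact trans ih1 ih2

lemma map_cj (g : G) {T T' : List G} (h : HurwitzEquiv T T') :
    HurwitzEquiv (T.map (cj g)) (T'.map (cj g)) := by
  have e : (cj g : G → G) = (MulAut.conj g).toMonoidHom := by
    funext x; simp [cj]
  rw [e]
  exact map_hom _ h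

/-- conjugation invariant properties of the members -/
lemma forall_iff {P : G → Prop} (hP : ∀ g x, P x → P (cj g x)) {T T' : List G}
    (h : HurwitzEquiv T T') : (∀ t ∈ T, P t) ↔ (∀ t ∈ T', P t) := by
  have hP' : ∀ g x, P (g * x * g⁻¹) ↔ P x := by
    intro g x
    constructor
    · intro h
      have := hP g⁻¹ _ h
      simpa [cj, mul_assoc] using this
    · exact hP g x
  induction h with
  | rel T T' h =>
    obtain ⟨A, B, a, b, rfl, rfl⟩ := h
    simp only [List.mem_append, List.mem_cons]
    constructor
    · rintro h t (h1 | h1 | h1 | h1)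
      · exact h t (Or.inl h1)
      · subst h1; rw [hP']; exact h b (by simp)
      · subst h1; exact h t (by simp)
      · exact h t (by simp [h1])
    · rintro h t (h1 | h1 | h1 | h1)
      · exact h t (Or.inl h1)
      · subst h1; exact h t (by simp)
      · subst h1; rw [← hP' a]; exact h _ (by simp)
      · exact h t (by simp [h1])
  | refl T => rfl
  | symm T T' _ ih => exact ih.symm
  | trans T T' T'' _ _ ih1 ih2 => exact ih1.trans ih2

lemma step (a b : G) (V : List G) : HurwitzEquiv (a :: b :: V) (cj a b :: a :: V) :=
  Relation.EqvGen.rel _ _ ⟨[], V, a, b, rfl, rfl⟩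

lemma step' (a b : G) (V : List G) : HurwitzEquiv (a :: b :: V) (b :: cj b⁻¹ a :: V) := by
  have h := step b (cj b⁻¹ a) V
  rw [cj_mul, mul_inv_cancel, cj_one] at h
  exact symm h

/-- move one element to the right of a block, conjugating the block -/
lemma cons_block (a : G) (T : List G) : HurwitzEquiv (a :: T) (T.map (cj a) ++ [a]) := by
  induction T with
  | nil => exact refl _
  | cons b T ih =>
    refine trans (step a b T) ?_
    rw [List.map_cons, List.cons_append]
    exact cons _ ih

/-- block moves: `S` passes to the left of `T` -/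
lemma block (T S : List G) : HurwitzEquiv (T ++ S) (S.map (cj T.prod) ++ T) := by
  induction T generalizing S with
  | nil => simp only [List.nil_append, List.prod_nil, map_cj_one, List.append_nil]; exact refl _
  | cons a T ih =>
    rw [List.cons_append]
    refine trans (cons a (ih S)) ?_
    have h1 := append_right T (cons_block a (S.map (cj T.prod)))
    rw [List.cons_append, map_cj_cj, List.append_assoc, List.singleton_append] at h1
    rw [List.prod_cons]
    exact h1

/-- block moves: `S` passes unchanged to the left of `T` -/
lemma block' (T S : List G) : HurwitzEquiv (T ++ S) (S ++ T.map (cj S.prod⁻¹)) := by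
  have h := block S (T.map (cj S.prod⁻¹))
  rw [map_cj_cj, mul_inv_cancel, map_cj_one] at h
  exact symm h

/-- the full twist -/
lemma full_twist (T : List G) : HurwitzEquiv T (T.map (cj T.prod)) := by
  induction T with
  | nil => exact refl _
  | cons a T ih =>
    have h1 := cons_block a T
    have h2 := block (T.map (cj a)) [a]
    rw [prod_map_cj] at h2
    have h3 := map_cj a ih
    rw [map_cj_cj] at h3
    refine trans h1 (trans h2 ?_)
    rw [List.map_cons, List.map_nil, List.singleton_append, List.map_cons, List.prod_cons]
    have e : cj (cj a T.prod) a = cj (a * T.prod) a := by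
      simp only [cj]; group
    rw [e]
    exact cons _ h3

/-- a block passes to the left, inside a longer tuple -/
lemma block3 (U T S V : List G) :
    HurwitzEquiv (U ++ (T ++ (S ++ V))) (U ++ (S.map (cj T.prod) ++ (T ++ V))) := by
  have := append U V (block T S)
  simpa [List.append_assoc] using this

lemma block3' (U T S V : List G) :
    HurwitzEquiv (U ++ (T ++ (S ++ V))) (U ++ (S ++ (T.map (cj S.prod⁻¹) ++ V))) := by
  have := append U V (block' T S)
  simpa [List.append_assoc] using this

lemma cj_eq_of_center {z : G} (hz : z ∈ Subgroup.center G) (g x : G) :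
    cj (g * z) x = cj g x := by
  have h := (Subgroup.mem_center_iff.1 hz) x
  simp only [cj]
  rw [mul_inv_rev]
  calc g * z * x * (z⁻¹ * g⁻¹) = g * (z * x) * z⁻¹ * g⁻¹ := by group
    _ = g * (x * z) * z⁻¹ * g⁻¹ := by rw [h]
    _ = g * x * g⁻¹ := by group

/-- cyclic rotation of a tuple with central product -/
lemma rotate {T S : List G} (h : (T ++ S).prod ∈ Subgroup.center G) :
    HurwitzEquiv (T ++ S) (S ++ T) := by
  rw [List.prod_append] at h
  have h1 := block' T S
  have h2 : T.map (cj S.prod⁻¹) = T.map (cj T.prod) := by
    apply List.map_congr_left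
    intro x _
    have h3 : S.prod⁻¹ * (T.prod * S.prod) = T.prod := by
      have := (Subgroup.mem_center_iff.1 h) S.prod⁻¹
      rw [this]; group
    rw [← h3, cj_eq_of_center h]
  rw [h2] at h1
  exact trans h1 (append_left S (symm (full_twist T)))

/-- conjugation by a member, for central products -/
lemma conj_mem {T : List G} (h : T.prod ∈ Subgroup.center G) {t : G} (ht : t ∈ T) :
    HurwitzEquiv T (T.map (cj t)) := by
  obtain ⟨U, V, rfl⟩ := List.append_of_mem ht
  have h1 : HurwitzEquiv (U ++ t :: V) (t :: V ++ U) := rotate h
  have h2 : HurwitzEquiv (t :: (V ++ U)) ((V ++ U).map (cj t) ++ [t]) := cons_block t (V ++ U)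
  rw [List.map_append, List.append_assoc] at h2
  have h3 : HurwitzEquiv (V.map (cj t) ++ (U.map (cj t) ++ [t]))
      ((U.map (cj t) ++ [t]) ++ V.map (cj t)) := by
    apply rotate
    have e1 := prod_eq h2
    have e2 := prod_eq h1
    rw [← e1]
    rw [List.cons_append] at e2
    rw [← e2]
    exact h
  have h4 : (U.map (cj t) ++ [t]) ++ V.map (cj t) = (U ++ t :: V).map (cj t) := by
    simp [cj]
  rw [h4] at h3
  exact trans h1 (trans h2 h3)

/-- conjugation by an element of the group generated by the members, for central products -/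
lemma conj_closure {T : List G} (h : T.prod ∈ Subgroup.center G) {g : G}
    (hg : g ∈ Subgroup.closure {t | t ∈ T}) : HurwitzEquiv T (T.map (cj g)) := by
  have hinv : ∀ x : G, HurwitzEquiv T (T.map (cj x)) → HurwitzEquiv T (T.map (cj x⁻¹)) := by
    intro x hx
    have h1 := map_cj x⁻¹ hx
    rw [map_cj_cj, inv_mul_cancel, map_cj_one] at h1
    exact symm h1
  induction hg using Subgroup.closure_induction with
  | mem x hx => exact conj_mem h hx
  | one => rw [map_cj_one]; exact refl T
  | mul x y _ _ hx hy =>
    have h1 := map_cj x hy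
    rw [map_cj_cj] at h1
    exact trans hx h1
  | inv x _ hx => exact hinv x hx

end HE

end Pool.Agent.Helper905_HF
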