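import Pool.Agent.Helper905_HF.Diag

/-!
# The peeling theorem in free groups
-/

set_option autoImplicit false

namespace Pool.Agent.Helper905_HF

variable {α : Type}

/-- the letters as elements of the free group -/
def fl (a : α × Bool) : FreeGroup α := FreeGroup.mk [a]

lemma fl_li (a : α × Bool) : fl (li a) = (fl a)⁻¹ := by
  obtain ⟨a, b⟩ := a
  simp [fl, li, FreeGroup.inv_mk, FreeGroup.invRev]

lemma ev_fl (w : List (α × Bool)) : ev fl w = FreeGroup.mk w := by
  induction w with
  | nil => rfl
  | cons a w ih =>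
    rw [ev_cons, ih]
    simp [fl, FreeGroup.mul_mk]

/-- the diagram of one relator with a tail -/
lemma diag_one {G : Type} [Group G] {f : α × Bool → G}
    {R : Set (List (α × Bool))}
    (hR : ∀ A C : List (α × Bool), A ++ C ∈ R → C ++ A ∈ R) {r : List (α × Bool)} (hr : r ∈ R)
    (A : List (α × Bool)) :
    Diag f R [cj (ev f A) (ev f r)] (A ++ (r ++ (A.map li).reverse)) := by
  induction A with
  | nil =>
    simp only [ev_nil, cj_one, List.nil_append, List.map_nil, List.reverse_nil, List.append_nil]
    apply Diag.core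
    · simp
    · intro A' a C' hw
      refine ⟨C' ++ A', [], ?_, ?_⟩
      · have := hR A' (a :: C') (by rw [← hw]; exact hr)
        simpa using this
      · apply HE.of_eq
        rw [hw]
        simp only [cj, ev_cons, ev_append]
        congr 1
        group
  | cons a A ih =>
    have h0 : Diag f R ([] : List G) [] := diag_nil rfl
    have h1 := Diag.thin (f := f) (R := R) [cj (ev f (a :: A)) (ev f r)]
      [cj (ev f A) (ev f r)] [] [] a (A ++ (r ++ (A.map li).reverse)) [] ih
      (by simpa using h0) (by
        apply HE.of_eq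
        simp [cj_mul])
    simpa using h1

/-- every tuple of conjugates of relators bounds a word -/
lemma exists_diag {G : Type} [Group G] {f : α × Bool → G} (hf : ∀ a, f (li a) = (f a)⁻¹)
    {R : Set (List (α × Bool))}
    (hR : ∀ A C : List (α × Bool), A ++ C ∈ R → C ++ A ∈ R) (T : List G)
    (hT : ∀ t ∈ T, ∃ (A r : List (α × Bool)), r ∈ R ∧ t = cj (ev f A) (ev f r)) :
    ∃ W, Diag f R T W := by
  induction T with
  | nil => exact ⟨[], diag_nil rfl⟩
  | cons t T ih =>
    obtain ⟨W, hW⟩ := ih (fun s hs => hT s (List.mem_cons_of_mem _ hs))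
    obtain ⟨A, r, hr, rfl⟩ := hT t List.mem_cons_self
    have h1 := hW.insert hf [] W rfl _ _ (diag_one hR hr A)
    rw [ev_nil, map_cj_one] at h1
    exact ⟨_, h1⟩

lemma Diag.red {G : Type} [Group G] {f : α × Bool → G} (hf : ∀ a, f (li a) = (f a)⁻¹)
    {R : Set (List (α × Bool))} {T : List G} {W W' : List (α × Bool)} (h : Diag f R T W)
    (hred : FreeGroup.Red W W') : Diag f R T W' := by
  induction hred with
  | refl => exact h
  | tail _ hs ih =>
    cases hs with
    | not => exact ih.fold hf _ _ _ rfl

/-- **The peeling theorem.**  Let `T` be a tuple of conjugates, in a free group, of relators from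
a set which is closed under cyclic rotations, and let `A a C` be the reduced word of the product
of `T`.  If the inverse of the letter `a` does not occur in this word, then, up to Hurwitz
equivalence, `T` begins with `A (a ρ) A⁻¹` for a relator `a ρ` beginning with the letter `a`. -/
theorem peeling {R : Set (List (α × Bool))}
    (hR : ∀ A C : List (α × Bool), A ++ C ∈ R → C ++ A ∈ R) (T : List (FreeGroup α))
    (hT : ∀ t ∈ T, ∃ (g : FreeGroup α) (r : List (α × Bool)), r ∈ R ∧ t = cj g (FreeGroup.mk r))
    (A : List (α × Bool)) (a : α × Bool) (C : List (α × Bool))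
    (hred : FreeGroup.IsReduced (A ++ a :: C)) (hprod : T.prod = FreeGroup.mk (A ++ a :: C))
    (hna : li a ∉ A ++ a :: C) :
    ∃ (ρ : List (α × Bool)) (T'' : List (FreeGroup α)), (a :: ρ) ∈ R ∧
      HurwitzEquiv T (cj (FreeGroup.mk A) (FreeGroup.mk (a :: ρ)) :: T'') := by
  classical
  obtain ⟨W, hW⟩ := exists_diag (f := fl) fl_li hR T (by
    intro t ht
    obtain ⟨g, r, hr, rfl⟩ := hT t ht
    refine ⟨g.toWord, r, hr, ?_⟩
    rw [ev_fl, ev_fl, FreeGroup.mk_toWord])
  have h1 : FreeGroup.mk W = FreeGroup.mk (A ++ a :: C) := by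
    rw [← ev_fl, ← hW.prod_eq fl_li, hprod]
  have h2 : FreeGroup.reduce W = A ++ a :: C := by
    rw [FreeGroup.reduce.sound h1, hred.reduce_eq]
  have h3 : FreeGroup.Red W (A ++ a :: C) := by
    rw [← h2]
    exact FreeGroup.reduce.red
  have h4 := (hW.red fl_li h3).peel fl_li A a C rfl hna
  obtain ⟨ρ, T'', h5, h6⟩ := h4
  rw [ev_fl, ev_fl] at h6
  exact ⟨ρ, T'', h5, h6⟩

end Pool.Agent.Helper905_HF
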