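import Pool.Agent.Helper905_HF.Peel

/-!
# Tuples of meridians in torus knot groups
-/

set_option autoImplicit false

namespace Pool.Agent.Helper905_HF

/-- the free group on two letters -/
abbrev F2 : Type := FreeGroup Bool

/-- the generators -/
def gn (c : Bool) : F2 := FreeGroup.of c

/-- The relators: the two rotations of `x y`, and the powers `x ^ (± p)`, `y ^ (± q)`. -/
def Rel (e : Bool → ℕ) : Set (List (Bool × Bool)) :=
  {w | ∃ c, w = [(c, true), (!c, true)] ∨ w = List.replicate (e c) (c, true) ∨
    w = List.replicate (e c) (c, false)}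

lemma mk_true (n : ℕ) (c : Bool) : FreeGroup.mk (List.replicate n (c, true)) = gn c ^ n := by
  induction n with
  | zero => rfl
  | succ n ih =>
    rw [List.replicate_succ, pow_succ', ← ih, gn, FreeGroup.of, FreeGroup.mul_mk]
    rfl

lemma mk_false (n : ℕ) (c : Bool) :
    FreeGroup.mk (List.replicate n (c, false)) = (gn c)⁻¹ ^ n := by
  induction n with
  | zero => rfl
  | succ n ih =>
    rw [List.replicate_succ, pow_succ', ← ih, gn, FreeGroup.of, FreeGroup.inv_mk,
      FreeGroup.mul_mk]
    rfl

lemma mk_pair (c : Bool) : FreeGroup.mk [(c, true), (!c, true)] = gn c * gn (!c) := by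
  rw [gn, gn, FreeGroup.of, FreeGroup.of, FreeGroup.mul_mk]
  rfl

lemma rel_rot (e : Bool → ℕ) (A C : List (Bool × Bool)) (h : A ++ C ∈ Rel e) :
    C ++ A ∈ Rel e := by
  have hrep : ∀ (n : ℕ) (a : Bool × Bool), A ++ C = List.replicate n a →
      C ++ A = List.replicate n a := by
    intro n a h
    rw [List.append_eq_replicate_iff] at h
    rw [List.append_eq_replicate_iff]
    exact ⟨by omega, h.2.2, h.2.1⟩
  obtain ⟨c, h | h | h⟩ := h
  · cases A with
    | nil => exact ⟨c, Or.inl (by simpa using h)⟩
    | cons a A =>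
      rw [List.cons_append, List.cons.injEq] at h
      obtain ⟨rfl, h⟩ := h
      cases A with
      | nil =>
        rw [List.nil_append] at h
        subst h
        exact ⟨!c, Or.inl (by simp)⟩
      | cons b A =>
        rw [List.cons_append, List.cons.injEq] at h
        obtain ⟨rfl, h⟩ := h
        rw [List.append_eq_nil_iff] at h
        obtain ⟨rfl, rfl⟩ := h
        exact ⟨c, Or.inl (by simp)⟩
  · exact ⟨c, Or.inr (Or.inl (hrep _ _ h))⟩
  · exact ⟨c, Or.inr (Or.inr (hrep _ _ h))⟩

/-- conjugates of relators -/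
def Ty (e : Bool → ℕ) (t : F2) : Prop := ∃ (g : F2) (r : List (Bool × Bool)), r ∈ Rel e ∧
  t = cj g (FreeGroup.mk r)

lemma Ty.cj {e : Bool → ℕ} (g : F2) {t : F2} (h : Ty e t) : Ty e (cj g t) := by
  obtain ⟨k, r, hr, rfl⟩ := h
  exact ⟨g * k, r, hr, cj_mul _ _ _⟩

/-- the exponent sum of the letter `c` -/
def exs (c : Bool) : F2 →* Multiplicative ℤ :=
  FreeGroup.lift (fun a => if a = c then Multiplicative.ofAdd 1 else 1)

lemma exs_gn_self (c : Bool) : exs c (gn c) = Multiplicative.ofAdd 1 := by
  simp [exs, gn]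

lemma exs_gn_not (c : Bool) : exs c (gn (!c)) = 1 := by
  simp [exs, gn]

lemma exs_gn_not' (c : Bool) : exs (!c) (gn c) = 1 := by
  have := exs_gn_not (!c)
  rwa [Bool.not_not] at this

lemma exs_cj (c : Bool) (g t : F2) : exs c (cj g t) = exs c t := by
  simp only [cj, map_mul, map_inv]
  rw [mul_comm (exs c g), mul_assoc, mul_inv_cancel, mul_one]

open Classical in
/-- the conjugates of `x y` are recognised by their exponent sums -/
noncomputable def isM (t : F2) : Bool :=
  decide (exs true t = Multiplicative.ofAdd 1 ∧ exs false t = Multiplicative.ofAdd 1)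

lemma isM_cj (g t : F2) : isM (cj g t) = isM t := by
  simp only [isM, exs_cj]

lemma isM_pair (c : Bool) : isM (gn c * gn (!c)) = true := by
  simp only [isM, decide_eq_true_eq, map_mul]
  cases c
  · exact ⟨by rw [show (true : Bool) = !false from rfl, exs_gn_not', exs_gn_self, one_mul],
      by rw [exs_gn_self, exs_gn_not, mul_one]⟩
  · exact ⟨by rw [exs_gn_self, exs_gn_not, mul_one],
      by rw [show (false : Bool) = !true from rfl, exs_gn_not', exs_gn_self, one_mul]⟩

lemma isM_pow (c : Bool) (n : ℤ) : isM (gn c ^ n) = false := by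
  have h1 : exs (!c) (gn c ^ n) ≠ Multiplicative.ofAdd 1 := by
    rw [map_zpow, exs_gn_not', one_zpow]
    intro h
    have := congrArg Multiplicative.toAdd h
    simp at this
  simp only [isM, decide_eq_false_iff_not]
  rintro ⟨h2, h3⟩
  cases c
  · exact h1 h2
  · exact h1 h3

section images

variable {K : Type} [Group K] (φ : F2 →* K)

/-- the images in `K` of the members of type `x y` -/
noncomputable def M (T : List F2) : List K := (T.filter isM).map φ

@[simp] lemma M_nil : M φ [] = [] := rfl

lemma M_append (S T : List F2) : M φ (S ++ T) = M φ S ++ M φ T := by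
  simp [M]

lemma M_cons_true {t : F2} (h : isM t = true) (T : List F2) : M φ (t :: T) = φ t :: M φ T := by
  simp [M, h]

lemma M_cons_false {t : F2} (h : isM t = false) (T : List F2) : M φ (t :: T) = M φ T := by
  simp [M, h]

lemma M_map_cj (g : F2) (T : List F2) : M φ (T.map (cj g)) = (M φ T).map (cj (φ g)) := by
  induction T with
  | nil => rfl
  | cons t T ih =>
    rw [List.map_cons]
    cases h : isM t with
    | true =>
      rw [M_cons_true φ (by rw [isM_cj]; exact h), M_cons_true φ h, ih, List.map_cons]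
      simp [cj]
    | false =>
      rw [M_cons_false φ (by rw [isM_cj]; exact h), M_cons_false φ h, ih]

variable {e : Bool → ℕ}

lemma central_of_not (hφ : ∀ c, φ (gn c ^ e c) ∈ Subgroup.center K) {t : F2} (ht : Ty e t)
    (hm : isM t = false) : φ t ∈ Subgroup.center K := by
  obtain ⟨g, r, ⟨c, rfl | rfl | rfl⟩, rfl⟩ := ht
  · rw [mk_pair, isM_cj, isM_pair] at hm
    exact absurd hm (by simp)
  · rw [mk_true]
    simp only [cj, map_mul, map_inv]
    have h := hφ c
    have h1 := (Subgroup.mem_center_iff.1 h) (φ g)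
    rw [h1, mul_inv_cancel_right]
    exact h
  · rw [mk_false, inv_pow]
    simp only [cj, map_mul, map_inv]
    have h := inv_mem (hφ c)
    have h1 := (Subgroup.mem_center_iff.1 h) (φ g)
    rw [h1, mul_inv_cancel_right]
    exact h

/-- the images of Hurwitz equivalent tuples are Hurwitz equivalent -/
lemma M_he (hφ : ∀ c, φ (gn c ^ e c) ∈ Subgroup.center K) {T T' : List F2}
    (h : HurwitzEquiv T T') : (∀ t ∈ T, Ty e t) → HurwitzEquiv (M φ T) (M φ T') := by
  induction h with
  | rel T T' h =>
    obtain ⟨U, V, a, b, rfl, rfl⟩ := h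
    intro hT
    have ha : Ty e a := hT a (by simp)
    have hb : Ty e b := hT b (by simp)
    rw [M_append, M_append]
    have hc : isM (a * b * a⁻¹) = isM b := isM_cj a b
    apply HE.append_left
    cases hma : isM a with
    | true =>
      cases hmb : isM b with
      | true =>
        rw [M_cons_true φ hma, M_cons_true φ hmb, M_cons_true φ (by rw [hc]; exact hmb),
          M_cons_true φ hma]
        simp only [map_mul, map_inv]
        exact HE.step _ _ _
      | false =>
        rw [M_cons_true φ hma, M_cons_false φ hmb, M_cons_false φ (by rw [hc]; exact hmb),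
          M_cons_true φ hma]
        exact HE.refl _
    | false =>
      have hcen := central_of_not φ hφ ha hma
      cases hmb : isM b with
      | true =>
        rw [M_cons_false φ hma, M_cons_true φ hmb, M_cons_true φ (by rw [hc]; exact hmb),
          M_cons_false φ hma]
        apply HE.of_eq
        congr 1
        simp only [map_mul, map_inv]
        have h1 := (Subgroup.mem_center_iff.1 hcen) (φ b)
        rw [← h1, mul_inv_cancel_right]
      | false =>
        rw [M_cons_false φ hma, M_cons_false φ hmb, M_cons_false φ (by rw [hc]; exact hmb),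
          M_cons_false φ hma]
        exact HE.refl _
  | refl T => exact fun _ => HE.refl _
  | symm T T' h ih =>
    intro hT
    exact HE.symm (ih ((HE.forall_iff (P := Ty e) (fun g x hx => hx.cj g) h).2 hT))
  | trans T T' T'' h h' ih ih' =>
    intro hT
    exact HE.trans (ih hT) (ih' ((HE.forall_iff (P := Ty e) (fun g x hx => hx.cj g) h).1 hT))

/-- Every tuple of conjugates of relators with product `g` has image Hurwitz equivalent to `L`
followed by the image of a tuple with trivial product. -/
def Fills (e : Bool → ℕ) (g : F2) (L : List K) : Prop :=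
  ∀ T : List F2, (∀ t ∈ T, Ty e t) → T.prod = g →
    ∃ T' : List F2, (∀ t ∈ T', Ty e t) ∧ T'.prod = 1 ∧ HurwitzEquiv (M φ T) (L ++ M φ T')

lemma fills_one : Fills φ e 1 [] := fun T hT h => ⟨T, hT, h, HE.refl _⟩

/-- the words `y ^ (-j) x ^ n` -/
def wd (j : ℕ) (c : Bool) (n : ℤ) : F2 := (gn (!c))⁻¹ ^ j * gn c ^ n

lemma isReduced_two (j k : ℕ) (c : Bool) (b b' : Bool) :
    FreeGroup.IsReduced (List.replicate j (!c, b) ++ List.replicate k (c, b')) := by
  unfold FreeGroup.IsReduced
  rw [List.isChain_append]
  refine ⟨List.isChain_replicate_of_rel _ (fun _ => rfl),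
    List.isChain_replicate_of_rel _ (fun _ => rfl), ?_⟩
  intro x hx y hy hxy
  have h1 := List.eq_of_mem_replicate (List.mem_of_mem_getLast? hx)
  have h2 := List.eq_of_mem_replicate (List.mem_of_mem_head? hy)
  subst h1
  subst h2
  exact absurd hxy (by simp)

lemma peel_two (T : List F2) (hT : ∀ t ∈ T, Ty e t) (j k : ℕ) (c b : Bool)
    (hprod : T.prod = (gn (!c))⁻¹ ^ j * FreeGroup.mk (List.replicate (k + 1) (c, b))) :
    ∃ (ρ : List (Bool × Bool)) (T'' : List F2), ((c, b) :: ρ) ∈ Rel e ∧
      HurwitzEquiv T (cj ((gn (!c))⁻¹ ^ j) (FreeGroup.mk ((c, b) :: ρ)) :: T'') := by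
  have h := peeling (rel_rot e) T hT (List.replicate j (!c, false)) (c, b)
    (List.replicate k (c, b)) (by
      rw [← List.replicate_succ]
      exact isReduced_two j (k + 1) c false b) (by
      rw [← List.replicate_succ, ← FreeGroup.mul_mk, mk_false]
      exact hprod) (by
      intro hmem
      rw [List.mem_append, List.mem_cons] at hmem
      rcases hmem with hmem | hmem | hmem
      · have := List.eq_of_mem_replicate hmem
        simp [li] at this
      · simp [li] at hmem
      · have := List.eq_of_mem_replicate hmem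
        simp [li] at this)
  rw [mk_false] at h
  exact h

lemma rel_true {c : Bool} {ρ : List (Bool × Bool)} (h : ((c, true) :: ρ) ∈ Rel e) :
    (c, true) :: ρ = [(c, true), (!c, true)] ∨
      (c, true) :: ρ = List.replicate (e c) (c, true) := by
  obtain ⟨c', h | h | h⟩ := h
  · left
    have h1 : c = c' := by
      have := congrArg (fun l : List (Bool × Bool) => l.head?) h
      simpa using this
    subst h1
    exact h
  · right
    have h1 : (c, true) ∈ List.replicate (e c') (c', true) := by rw [← h]; simp
    have h2 := List.eq_of_mem_replicate h1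
    have h3 : c = c' := congrArg Prod.fst h2
    subst h3
    exact h
  · exfalso
    have h1 : (c, true) ∈ List.replicate (e c') (c', false) := by rw [← h]; simp
    have h2 := List.eq_of_mem_replicate h1
    have h3 : true = false := congrArg Prod.snd h2
    exact absurd h3 (by simp)

lemma rel_false {c : Bool} {ρ : List (Bool × Bool)} (h : ((c, false) :: ρ) ∈ Rel e) :
    (c, false) :: ρ = List.replicate (e c) (c, false) := by
  obtain ⟨c', h | h | h⟩ := h
  · exfalso
    have := congrArg (fun l : List (Bool × Bool) => l.head?) h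
    simp at this
  · exfalso
    have h1 : (c, false) ∈ List.replicate (e c') (c', true) := by rw [← h]; simp
    have h2 := List.eq_of_mem_replicate h1
    have h3 : false = true := congrArg Prod.snd h2
    exact absurd h3 (by simp)
  · have h1 : (c, false) ∈ List.replicate (e c') (c', false) := by rw [← h]; simp
    have h2 := List.eq_of_mem_replicate h1
    have h3 : c = c' := congrArg Prod.fst h2
    subst h3
    exact h

lemma ty_of_he {T T' : List F2} {t : F2} (h : HurwitzEquiv T (t :: T')) (hT : ∀ t ∈ T, Ty e t) :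
    ∀ s ∈ T', Ty e s := by
  have := (HE.forall_iff (P := Ty e) (fun g x hx => hx.cj g) h).1 hT
  exact fun s hs => this s (List.mem_cons_of_mem _ hs)

/-- peeling a power -/
lemma fills_neg (hφ : ∀ c, φ (gn c ^ e c) ∈ Subgroup.center K) (c : Bool) (j k : ℕ) (hk : 1 ≤ k)
    (L : List K) (h : Fills φ e (wd j c ((e c : ℤ) - k)) L) :
    Fills φ e (wd j c (-(k : ℤ))) L := by
  intro T hT hprod
  obtain ⟨n, rfl⟩ : ∃ n, k = n + 1 := ⟨k - 1, by omega⟩
  obtain ⟨ρ, T'', h1, h2⟩ := peel_two T hT j n c false (by
    rw [hprod, mk_false, wd]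
    congr 1
    rw [zpow_neg, zpow_natCast, inv_pow])
  rw [rel_false h1, mk_false] at h2
  have hM := M_he φ hφ h2 hT
  have hf : isM (cj ((gn (!c))⁻¹ ^ j) ((gn c)⁻¹ ^ e c)) = false := by
    rw [isM_cj, show (gn c)⁻¹ ^ e c = gn c ^ (-(e c : ℤ)) by rw [zpow_neg, zpow_natCast, inv_pow]]
    exact isM_pow c _
  rw [M_cons_false φ hf] at hM
  obtain ⟨T', a1, a2, a3⟩ := h T'' (ty_of_he h2 hT) (by
    have h3 := HE.prod_eq h2
    rw [hprod, List.prod_cons] at h3
    have h4 : T''.prod = (cj ((gn (!c))⁻¹ ^ j) ((gn c)⁻¹ ^ e c))⁻¹ *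
        wd j c (-((n + 1 : ℕ) : ℤ)) := by
      rw [h3]; group
    rw [h4]
    simp only [cj, wd]
    rw [zpow_sub, zpow_neg, zpow_natCast]
    group)
  exact ⟨T', a1, a2, HE.trans hM a3⟩

/-- peeling one member of type `x y` -/
lemma fills_pos (hφ : ∀ c, φ (gn c ^ e c) ∈ Subgroup.center K) (c : Bool) (j k : ℕ)
    (hke : k + 1 < e c) (L : List K) (h : Fills φ e (wd (j + 1) c (k : ℤ)) L) :
    Fills φ e (wd j c ((k + 1 : ℕ) : ℤ))
      (φ (cj ((gn (!c))⁻¹ ^ j) (gn c * gn (!c))) :: L) := by
  have key : ∀ (n : ℕ) (T : List F2), T.length = n → (∀ t ∈ T, Ty e t) →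
      T.prod = wd j c ((k + 1 : ℕ) : ℤ) →
      ∃ T' : List F2, (∀ t ∈ T', Ty e t) ∧ T'.prod = 1 ∧
        HurwitzEquiv (M φ T) ((φ (cj ((gn (!c))⁻¹ ^ j) (gn c * gn (!c))) :: L) ++ M φ T') := by
    intro n
    induction n using Nat.strong_induction_on with
    | _ n ih =>
      intro T hTn hT hprod
      obtain ⟨ρ, T'', h1, h2⟩ := peel_two T hT j k c true (by
        rw [hprod, mk_true, wd, zpow_natCast])
      have hM := M_he φ hφ h2 hT
      have hT'' := ty_of_he h2 hT
      have h3 := HE.prod_eq h2
      rw [hprod, List.prod_cons] at h3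
      rcases rel_true h1 with h4 | h4
      · rw [h4, mk_pair] at hM h3
        have hm : isM (cj ((gn (!c))⁻¹ ^ j) (gn c * gn (!c))) = true := by
          rw [isM_cj]; exact isM_pair c
        rw [M_cons_true φ hm] at hM
        obtain ⟨T', a1, a2, a3⟩ := h T'' hT'' (by
          have h5 : T''.prod = (cj ((gn (!c))⁻¹ ^ j) (gn c * gn (!c)))⁻¹ *
              wd j c ((k + 1 : ℕ) : ℤ) := by rw [h3]; group
          rw [h5]
          simp only [cj, wd, zpow_natCast]
          rw [pow_succ' (gn c) k, pow_succ]
          group)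
        refine ⟨T', a1, a2, HE.trans hM ?_⟩
        rw [List.cons_append]
        exact HE.cons _ a3
      · -- a power of `x`: peel a second time
        rw [h4, mk_true] at hM h3
        have hf : isM (cj ((gn (!c))⁻¹ ^ j) (gn c ^ e c)) = false := by
          rw [isM_cj, ← zpow_natCast]
          exact isM_pow c _
        rw [M_cons_false φ hf] at hM
        have hl2 := HE.length_eq h2
        obtain ⟨m, hm⟩ : ∃ m, e c = k + 1 + (m + 1) := ⟨e c - (k + 1) - 1, by omega⟩
        have hp2 : T''.prod = (gn (!c))⁻¹ ^ j *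
            FreeGroup.mk (List.replicate (m + 1) (c, false)) := by
          have h5 : T''.prod = (cj ((gn (!c))⁻¹ ^ j) (gn c ^ e c))⁻¹ *
              wd j c ((k + 1 : ℕ) : ℤ) := by rw [h3]; group
          rw [h5, mk_false, hm, pow_add (gn c)]
          simp only [cj, wd, zpow_natCast]
          rw [inv_pow (gn c)]
          group
        obtain ⟨ρ', T3, k1, k2⟩ := peel_two T'' hT'' j m c false hp2
        rw [rel_false k1, mk_false] at k2
        have hM2 := M_he φ hφ k2 hT''
        have hf2 : isM (cj ((gn (!c))⁻¹ ^ j) ((gn c)⁻¹ ^ e c)) = false := by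
          rw [isM_cj, show (gn c)⁻¹ ^ e c = gn c ^ (-(e c : ℤ)) by
            rw [zpow_neg, zpow_natCast, inv_pow]]
          exact isM_pow c _
        rw [M_cons_false φ hf2] at hM2
        have hl3 := HE.length_eq k2
        rw [List.length_cons] at hl2 hl3
        obtain ⟨T', a1, a2, a3⟩ := ih T3.length (by omega) T3 rfl (ty_of_he k2 hT'') (by
          have h5 := HE.prod_eq k2
          rw [hp2, List.prod_cons, mk_false] at h5
          have h6 : T3.prod = (cj ((gn (!c))⁻¹ ^ j) ((gn c)⁻¹ ^ e c))⁻¹ *
              ((gn (!c))⁻¹ ^ j * (gn c)⁻¹ ^ (m + 1)) := by rw [h5]; group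
          rw [h6, hm]
          simp only [cj, wd, zpow_natCast]
          rw [inv_pow (gn c), inv_pow (gn c), pow_add (gn c) (k + 1) (m + 1)]
          group)
        exact ⟨T', a1, a2, HE.trans hM (HE.trans hM2 a3)⟩
  intro T hT hprod
  exact key T.length T rfl hT hprod

/-- the members peeled along a row -/
def row (c : Bool) (j k : ℕ) : List K :=
  (List.range' j k).map (fun i => φ (cj ((gn (!c))⁻¹ ^ i) (gn c * gn (!c))))

lemma row_succ (c : Bool) (j k : ℕ) : row φ c j (k + 1) =
    φ (cj ((gn (!c))⁻¹ ^ j) (gn c * gn (!c))) :: row φ c (j + 1) k := by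
  simp [row, List.range'_succ]

lemma row_length (c : Bool) (j k : ℕ) : (row φ c j k).length = k := by
  simp [row]

lemma fills_row (hφ : ∀ c, φ (gn c ^ e c) ∈ Subgroup.center K) (c : Bool) (k : ℕ) :
    ∀ (j : ℕ) (L : List K), k < e c → Fills φ e (wd (j + k) c 0) L →
      Fills φ e (wd j c (k : ℤ)) (row φ c j k ++ L) := by
  induction k with
  | zero =>
    intro j L _ h
    simpa [row] using h
  | succ k ih =>
    intro j L hk h
    rw [row_succ, List.cons_append]
    apply fills_pos φ hφ c j k hk
    apply ih (j + 1) L (by omega)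
    rw [show j + 1 + k = j + (k + 1) by ring]
    exact h

lemma wd_zero (j : ℕ) (c : Bool) : wd j c 0 = wd 0 (!c) (-(j : ℤ)) := by
  simp [wd]

end images

end Pool.Agent.Helper905_HF
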