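import Pool.Agent.Helper905_HF.TorusMain

/-!
# The torus knot groups and the lifting of tuples to the free group
-/

set_option autoImplicit false

namespace Pool.Agent.Helper905_HF

/-- The relator `x ^ (q + 1) y ^ q`. -/
def torusRel (q : ℕ) : Set (FreeGroup Bool) :=
  {FreeGroup.of true ^ (q + 1) * FreeGroup.of false ^ q}

/-- The group `⟨x, y ∣ x ^ (q + 1) y ^ q = 1⟩` of the torus knot of type `(q + 1, q)`. -/
abbrev TorusGroup (q : ℕ) : Type := PresentedGroup (torusRel q)

/-- the generator `x` -/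
def tx (q : ℕ) : TorusGroup q := PresentedGroup.of true

/-- the generator `y` -/
def ty (q : ℕ) : TorusGroup q := PresentedGroup.of false

/-- the projection from the free group -/
def pr (q : ℕ) : F2 →* TorusGroup q := PresentedGroup.mk (torusRel q)

lemma pr_true (q : ℕ) : pr q (gn true) = tx q := rfl

lemma pr_false (q : ℕ) : pr q (gn false) = ty q := rfl

lemma pr_rel (q : ℕ) : pr q (gn true ^ (q + 1) * gn false ^ q) = 1 :=
  PresentedGroup.one_of_mem rfl

lemma txy (q : ℕ) : tx q ^ (q + 1) * ty q ^ q = 1 := by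
  have := pr_rel q
  rwa [map_mul, map_pow, map_pow, pr_true, pr_false] at this

lemma torus_gen (q : ℕ) : Subgroup.closure {tx q, ty q} = ⊤ := by
  rw [← PresentedGroup.closure_range_of (torusRel q)]
  congr 1
  ext z
  simp only [Set.mem_insert_iff, Set.mem_singleton_iff, Set.mem_range, tx, ty]
  constructor
  · rintro (rfl | rfl)
    · exact ⟨true, rfl⟩
    · exact ⟨false, rfl⟩
  · rintro ⟨c, rfl⟩
    cases c
    · exact Or.inr rfl
    · exact Or.inl rfl

lemma center_of_commutes {G : Type} [Group G] {a b z : G} (hgen : Subgroup.closure {a, b} = ⊤)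
    (ha : Commute z a) (hb : Commute z b) : z ∈ Subgroup.center G := by
  rw [Subgroup.mem_center_iff]
  intro g
  have hg : g ∈ Subgroup.closure {a, b} := by rw [hgen]; exact Subgroup.mem_top g
  have hle : Subgroup.closure {a, b} ≤ Subgroup.centralizer {z} := by
    rw [Subgroup.closure_le]
    rintro y (rfl | rfl)
    · exact Subgroup.mem_centralizer_singleton_iff.2 ha.symm.eq
    · exact Subgroup.mem_centralizer_singleton_iff.2 hb.symm.eq
  have := Subgroup.mem_centralizer_singleton_iff.1 (hle hg)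
  exact this

lemma x_central (q : ℕ) : tx q ^ (q + 1) ∈ Subgroup.center (TorusGroup q) := by
  apply center_of_commutes (torus_gen q)
  · exact (Commute.refl _).pow_left _
  · have h : tx q ^ (q + 1) = (ty q ^ q)⁻¹ := by
      rw [eq_inv_iff_mul_eq_one]; exact txy q
    rw [h]
    exact ((Commute.refl _).pow_left _).inv_left

lemma y_central (q : ℕ) : ty q ^ q ∈ Subgroup.center (TorusGroup q) := by
  have h : ty q ^ q = (tx q ^ (q + 1))⁻¹ := by
    rw [eq_inv_iff_mul_eq_one, mul_eq_one_comm]; exact txy q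
  rw [h]
  exact inv_mem (x_central q)

lemma pr_central (q : ℕ) (c : Bool) : pr q (gn c ^ ex q c) ∈ Subgroup.center (TorusGroup q) := by
  cases c
  · rw [map_pow, pr_false]
    exact y_central q
  · rw [map_pow, pr_true]
    exact x_central q

/-- conjugates of the powers -/
def Zt (e : Bool → ℕ) (t : F2) : Prop :=
  ∃ g c, t = cj g (gn c ^ e c) ∨ t = cj g ((gn c)⁻¹ ^ e c)

lemma Zt.cj {e : Bool → ℕ} {t : F2} (h : Zt e t) (g : F2) : Zt e (cj g t) := by
  obtain ⟨k, c, rfl | rfl⟩ := h
  · exact ⟨g * k, c, Or.inl (cj_mul _ _ _)⟩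
  · exact ⟨g * k, c, Or.inr (cj_mul _ _ _)⟩

lemma Zt.inv {e : Bool → ℕ} {t : F2} (h : Zt e t) : Zt e t⁻¹ := by
  obtain ⟨k, c, rfl | rfl⟩ := h
  · refine ⟨k, c, Or.inr ?_⟩
    simp only [Helper905_HF.cj]
    rw [inv_pow]; group
  · refine ⟨k, c, Or.inl ?_⟩
    simp only [Helper905_HF.cj]
    rw [inv_pow]; group

lemma Zt.ty {e : Bool → ℕ} {t : F2} (h : Zt e t) : Ty e t := by
  obtain ⟨k, c, rfl | rfl⟩ := h
  · exact ⟨k, _, ⟨c, Or.inr (Or.inl rfl)⟩, by rw [mk_true]⟩
  · exact ⟨k, _, ⟨c, Or.inr (Or.inr rfl)⟩, by rw [mk_false]⟩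

lemma Zt.isM {e : Bool → ℕ} {t : F2} (h : Zt e t) : isM t = false := by
  obtain ⟨k, c, rfl | rfl⟩ := h
  · rw [isM_cj, ← zpow_natCast, isM_pow]
  · rw [isM_cj, inv_pow, ← zpow_natCast, ← zpow_neg, isM_pow]

/-- products of conjugates of the powers -/
def Zg (e : Bool → ℕ) : Subgroup F2 where
  carrier := {v | ∃ S : List F2, (∀ t ∈ S, Zt e t) ∧ S.prod = v}
  one_mem' := ⟨[], by simp, rfl⟩
  mul_mem' := by
    rintro a b ⟨S, hS, rfl⟩ ⟨S', hS', rfl⟩
    refine ⟨S ++ S', ?_, List.prod_append⟩
    intro t ht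
    rcases List.mem_append.1 ht with h | h
    · exact hS t h
    · exact hS' t h
  inv_mem' := by
    rintro a ⟨S, hS, rfl⟩
    refine ⟨(S.map (fun t => t⁻¹)).reverse, ?_, ?_⟩
    · intro t ht
      rw [List.mem_reverse, List.mem_map] at ht
      obtain ⟨s, hs, rfl⟩ := ht
      exact (hS s hs).inv
    · exact List.prod_inv_reverse S |>.symm

instance (e : Bool → ℕ) : (Zg e).Normal where
  conj_mem := by
    rintro a ⟨S, hS, rfl⟩ g
    refine ⟨S.map (cj g), ?_, ?_⟩
    · intro t ht
      obtain ⟨s, hs, rfl⟩ := List.mem_map.1 ht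
      exact (hS s hs).cj g
    · rw [prod_map_cj]; rfl

lemma pow_mem_Zg (e : Bool → ℕ) (c : Bool) : gn c ^ e c ∈ Zg e :=
  ⟨[gn c ^ e c], by
    intro t ht
    rw [List.mem_singleton] at ht
    exact ⟨1, c, Or.inl (by rw [ht, cj_one])⟩, by simp⟩

lemma ker_le (q : ℕ) : (pr q).ker ≤ Zg (ex q) := by
  have h : (pr q).ker = Subgroup.normalClosure (torusRel q) := by
    exact QuotientGroup.ker_mk' _
  rw [h]
  apply Subgroup.normalClosure_le_normal
  intro r hr
  rw [torusRel, Set.mem_singleton_iff] at hr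
  subst hr
  exact mul_mem (pow_mem_Zg (ex q) true) (pow_mem_Zg (ex q) false)

lemma mem_Zg_of (q : ℕ) {u : F2} (k : ℤ) (h : pr q u = (tx q ^ (q + 1)) ^ k) :
    u ∈ Zg (ex q) := by
  have h1 : u * ((gn true ^ (q + 1)) ^ k)⁻¹ ∈ (pr q).ker := by
    rw [MonoidHom.mem_ker, map_mul, map_inv, map_zpow, map_pow, pr_true, h, mul_inv_cancel]
  have h2 : (gn true ^ (q + 1)) ^ k ∈ Zg (ex q) := zpow_mem (pow_mem_Zg (ex q) true) k
  have h3 := mul_mem (ker_le q h1) h2
  rwa [inv_mul_cancel_right] at h3

/-- the members of `T` are conjugates of `x y` -/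
def Meridians (q : ℕ) (T : List (TorusGroup q)) : Prop :=
  ∀ t ∈ T, ∃ g, t = g * (tx q * ty q) * g⁻¹

lemma lift_list (q : ℕ) (T : List (TorusGroup q)) (hT : Meridians q T) :
    ∃ S : List F2, (∀ s ∈ S, Ty (ex q) s ∧ isM s = true) ∧ S.map (pr q) = T := by
  induction T with
  | nil => exact ⟨[], by simp, rfl⟩
  | cons t T ih =>
    obtain ⟨S, hS, h⟩ := ih (fun s hs => hT s (List.mem_cons_of_mem _ hs))
    obtain ⟨g, hg⟩ := hT t List.mem_cons_self
    obtain ⟨g', rfl⟩ := PresentedGroup.mk_surjective (torusRel q) g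
    refine ⟨cj g' (gn true * gn false) :: S, ?_, ?_⟩
    · intro s hs
      rcases List.mem_cons.1 hs with rfl | hs
      · exact ⟨⟨g', _, ⟨true, Or.inl rfl⟩, by rw [mk_pair]; rfl⟩, by
          rw [isM_cj]; exact isM_pair true⟩
      · exact hS s hs
    · rw [List.map_cons, h, hg]
      simp only [cj, map_mul, map_inv]
      rfl

/-- the weight of a member -/
noncomputable def wt (q : ℕ) : TorusGroup q →* Multiplicative ℤ :=
  PresentedGroup.toGroup (rels := torusRel q)
    (f := fun c => if c then Multiplicative.ofAdd (-(q : ℤ)) else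
      Multiplicative.ofAdd ((q : ℤ) + 1)) (by
    intro r hr
    rw [torusRel, Set.mem_singleton_iff] at hr
    subst hr
    simp only [map_mul, map_pow, FreeGroup.lift_apply_of, if_true, Bool.false_eq_true, if_false]
    rw [← ofAdd_nsmul, ← ofAdd_nsmul, ← ofAdd_add, ← ofAdd_zero]
    congr 1
    simp only [nsmul_eq_mul, Nat.cast_add, Nat.cast_one]
    ring)

lemma wt_xy (q : ℕ) : wt q (tx q * ty q) = Multiplicative.ofAdd 1 := by
  rw [map_mul, wt, tx, ty, PresentedGroup.toGroup.of, PresentedGroup.toGroup.of]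
  simp only [if_true, Bool.false_eq_true, if_false]
  rw [← ofAdd_add]
  congr 1
  ring

lemma wt_prod (q : ℕ) (T : List (TorusGroup q)) (hT : Meridians q T) :
    wt q T.prod = Multiplicative.ofAdd (T.length : ℤ) := by
  induction T with
  | nil => simp
  | cons t T ih =>
    obtain ⟨g, hg⟩ := hT t List.mem_cons_self
    rw [List.prod_cons, map_mul, ih (fun s hs => hT s (List.mem_cons_of_mem _ hs)), hg]
    have h1 : wt q (g * (tx q * ty q) * g⁻¹) = Multiplicative.ofAdd 1 := by
      rw [map_mul, map_mul, map_inv, mul_comm (wt q g), mul_assoc, mul_inv_cancel, mul_one, wt_xy]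
    rw [h1, ← ofAdd_add]
    congr 1
    push_cast [List.length_cons]
    ring

/-- the standard form -/
theorem torus_std {q : ℕ} (hq : 2 ≤ q) (k : ℤ) (T : List (TorusGroup q)) (hT : Meridians q T)
    (hprod : T.prod = (tx q ^ (q + 1)) ^ k) :
    ∃ m : ℕ, HurwitzEquiv T (List.replicate m (Ls (pr q) q)).flatten := by
  obtain ⟨S, hS, hST⟩ := lift_list q T hT
  have h1 : S.prod⁻¹ ∈ Zg (ex q) := by
    apply inv_mem
    apply mem_Zg_of q k
    rw [map_list_prod, hST]
    exact hprod
  obtain ⟨R, hR, hRp⟩ := h1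
  have hM : M (pr q) (S ++ R) = T := by
    have e1 : M (pr q) S = T := by
      rw [← hST, M]
      congr 1
      rw [List.filter_eq_self]
      exact fun s hs => (hS s hs).2
    have e2 : M (pr q) R = [] := by
      rw [M]
      have : R.filter isM = [] := by
        rw [List.filter_eq_nil_iff]
        intro a ha
        rw [(hR a ha).isM]
        simp
      rw [this]
      rfl
    rw [M_append, e1, e2, List.append_nil]
  have h2 := std_of_prod_one (pr q) hq (pr_central q) (pr_rel q)
    (by rw [pr_true, pr_false]; exact torus_gen q) _ (S ++ R) rfl (by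
      intro t ht
      rcases List.mem_append.1 ht with h | h
      · exact (hS t h).1
      · exact (hR t h).ty) (by rw [List.prod_append, hRp, mul_inv_cancel])
  rw [hM] at h2
  exact h2

/-- **Factorizations of central elements of torus knot groups into meridians.** -/
theorem torus_unique {q : ℕ} (hq : 2 ≤ q) (k : ℤ) (T T' : List (TorusGroup q))
    (hT : Meridians q T) (hT' : Meridians q T') (hprod : T.prod = (tx q ^ (q + 1)) ^ k)
    (hprod' : T'.prod = (tx q ^ (q + 1)) ^ k) : HurwitzEquiv T T' := by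
  obtain ⟨m, hm⟩ := torus_std hq k T hT hprod
  obtain ⟨m', hm'⟩ := torus_std hq k T' hT' hprod'
  have hl : T.length = T'.length := by
    have h1 := wt_prod q T hT
    have h2 := wt_prod q T' hT'
    rw [hprod] at h1
    rw [hprod', h1] at h2
    have := Multiplicative.ofAdd.injective h2
    exact_mod_cast this
  have h1 := HE.length_eq hm
  have h2 := HE.length_eq hm'
  rw [hl, h2] at h1
  simp only [List.length_flatten, List.map_replicate, List.sum_replicate, smul_eq_mul] at h1
  have h3 : 0 < (Ls (pr q) q).length := by simp [Ls]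
  have h4 : m' = m := Nat.eq_of_mul_eq_mul_right h3 h1
  subst h4
  exact HE.trans hm (HE.symm hm')

end Pool.Agent.Helper905_HF
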