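import Pool.Agent.Helper905_HF.Torus

/-!
# Hurwitz equivalence of tuples of meridians in the torus knot groups of type `(q + 1, q)`
-/

set_option autoImplicit false

namespace Pool.Agent.Helper905_HF

section

variable {K : Type} [Group K] (φ : F2 →* K)

/-- the exponents -/
def ex (q : ℕ) (c : Bool) : ℕ := if c then q + 1 else q

/-- the standard tuple -/
def Lq (q : ℕ) : ℕ → List K
  | 0 => row φ true 0 q
  | n + 1 => row φ true 0 (q - n - 1) ++ (row φ false 0 (n + 1) ++ Lq q n)

lemma fills_Lq {q : ℕ} (hφ : ∀ c, φ (gn c ^ ex q c) ∈ Subgroup.center K) :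
    ∀ n, n + 1 ≤ q → Fills φ (ex q) (wd 0 true ((q : ℤ) - n)) (Lq φ q n) := by
  intro n
  induction n with
  | zero =>
    intro hq
    have h1 := fills_one φ (e := ex q)
    have h2 : Fills φ (ex q) (wd 0 false (-(q : ℤ))) [] := by
      apply fills_neg φ hφ false 0 q (by omega)
      simpa [ex, wd] using h1
    have h3 : Fills φ (ex q) (wd (0 + q) true 0) [] := by
      rw [wd_zero, zero_add]
      exact h2
    have h4 := fills_row φ hφ true q 0 [] (by simp [ex]) h3
    simpa [Lq] using h4
  | succ n ih =>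
    intro hq
    have h1 := ih (by omega)
    have h2 : Fills φ (ex q) (wd 0 true (-((n + 1 : ℕ) : ℤ))) (Lq φ q n) := by
      apply fills_neg φ hφ true 0 (n + 1) (by omega)
      have e1 : ((ex q true : ℕ) : ℤ) - ((n + 1 : ℕ) : ℤ) = (q : ℤ) - n := by
        simp [ex]
      rw [e1]
      exact h1
    have h3 : Fills φ (ex q) (wd (0 + (n + 1)) false 0) (Lq φ q n) := by
      rw [wd_zero, zero_add]
      exact h2
    have h4 := fills_row φ hφ false (n + 1) 0 (Lq φ q n) (by simp [ex]; omega) h3
    have h5 : Fills φ (ex q) (wd 0 false (-((q - n - 1 : ℕ) : ℤ)))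
        (row φ false 0 (n + 1) ++ Lq φ q n) := by
      apply fills_neg φ hφ false 0 (q - n - 1) (by omega)
      have e1 : ((ex q false : ℕ) : ℤ) - ((q - n - 1 : ℕ) : ℤ) = ((n + 1 : ℕ) : ℤ) := by
        simp only [ex]
        simp
        omega
      rw [e1]
      exact h4
    have h6 : Fills φ (ex q) (wd (0 + (q - n - 1)) true 0)
        (row φ false 0 (n + 1) ++ Lq φ q n) := by
      rw [wd_zero, zero_add]
      exact h5
    have h7 := fills_row φ hφ true (q - n - 1) 0 _ (by simp [ex]; omega) h6
    have e2 : ((q - n - 1 : ℕ) : ℤ) = (q : ℤ) - ((n + 1 : ℕ) : ℤ) := by omega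
    rw [e2] at h7
    exact h7

/-- the tail of the standard tuple -/
def L0 (q : ℕ) : List K := row φ true 1 q ++ (row φ false 0 (q - 1) ++ Lq φ q (q - 2))

lemma fills_L0 {q : ℕ} (hq : 2 ≤ q) (hφ : ∀ c, φ (gn c ^ ex q c) ∈ Subgroup.center K) :
    Fills φ (ex q) (wd 1 true (-1)) (L0 φ q) := by
  have h1 := fills_Lq φ hφ (q - 2) (by omega)
  have h2 : Fills φ (ex q) (wd 0 true (-((q - 1 : ℕ) : ℤ))) (Lq φ q (q - 2)) := by
    apply fills_neg φ hφ true 0 (q - 1) (by omega)
    have e1 : ((ex q true : ℕ) : ℤ) - ((q - 1 : ℕ) : ℤ) = (q : ℤ) - ((q - 2 : ℕ) : ℤ) := by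
      simp only [ex]
      simp
      omega
    rw [e1]
    exact h1
  have h3 : Fills φ (ex q) (wd (0 + (q - 1)) false 0) (Lq φ q (q - 2)) := by
    rw [wd_zero, zero_add]
    exact h2
  have h4 := fills_row φ hφ false (q - 1) 0 _ (by simp [ex]; omega) h3
  have h5 : Fills φ (ex q) (wd 0 false (-((1 : ℕ) : ℤ)))
      (row φ false 0 (q - 1) ++ Lq φ q (q - 2)) := by
    apply fills_neg φ hφ false 0 1 le_rfl
    have e1 : ((ex q false : ℕ) : ℤ) - ((1 : ℕ) : ℤ) = ((q - 1 : ℕ) : ℤ) := by
      simp only [ex]
      simp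
      omega
    rw [e1]
    exact h4
  have h6 : Fills φ (ex q) (wd 0 false (-((q + 1 : ℕ) : ℤ)))
      (row φ false 0 (q - 1) ++ Lq φ q (q - 2)) := by
    apply fills_neg φ hφ false 0 (q + 1) (by omega)
    have e1 : ((ex q false : ℕ) : ℤ) - ((q + 1 : ℕ) : ℤ) = -((1 : ℕ) : ℤ) := by
      simp [ex]
    rw [e1]
    exact h5
  have h7 : Fills φ (ex q) (wd (1 + q) true 0)
      (row φ false 0 (q - 1) ++ Lq φ q (q - 2)) := by
    rw [wd_zero, add_comm]
    exact h6
  have h8 := fills_row φ hφ true q 1 _ (by simp [ex]) h7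
  have h9 : Fills φ (ex q) (wd 1 true (-((1 : ℕ) : ℤ)))
      (row φ true 1 q ++ (row φ false 0 (q - 1) ++ Lq φ q (q - 2))) := by
    apply fills_neg φ hφ true 1 1 le_rfl
    have e1 : ((ex q true : ℕ) : ℤ) - ((1 : ℕ) : ℤ) = (q : ℤ) := by
      simp [ex]
    rw [e1]
    exact h8
  simpa [L0] using h9

/-- the standard tuple of length `q (q + 1)` -/
def Ls (q : ℕ) : List K := φ (gn true * gn false) :: L0 φ q

/-- every conjugate of a relator is conjugate to `x y` if its exponent sums are right -/
lemma Ty.isM {e : Bool → ℕ} {t : F2} (h : Ty e t) (hm : isM t = true) :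
    ∃ g, t = Helper905_HF.cj g (gn true * gn false) := by
  obtain ⟨g, r, ⟨c, rfl | rfl | rfl⟩, rfl⟩ := h
  · rw [mk_pair]
    cases c
    · refine ⟨g * gn false, ?_⟩
      simp only [Helper905_HF.cj, Bool.not_false]
      group
    · exact ⟨g, rfl⟩
  · rw [mk_true, isM_cj, ← zpow_natCast, isM_pow] at hm
    exact absurd hm (by simp)
  · rw [mk_false, isM_cj, inv_pow, ← zpow_natCast, ← zpow_neg, isM_pow] at hm
    exact absurd hm (by simp)

/-- the product of the images up to a central element -/
lemma M_prod {e : Bool → ℕ} (hφ : ∀ c, φ (gn c ^ e c) ∈ Subgroup.center K) (T : List F2)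
    (hT : ∀ t ∈ T, Ty e t) : ∃ z ∈ Subgroup.center K, φ T.prod = (M φ T).prod * z := by
  induction T with
  | nil => exact ⟨1, one_mem _, by simp⟩
  | cons t T ih =>
    obtain ⟨z, hz, h⟩ := ih (fun s hs => hT s (List.mem_cons_of_mem _ hs))
    cases hm : isM t with
    | true =>
      refine ⟨z, hz, ?_⟩
      rw [M_cons_true φ hm, List.prod_cons, List.prod_cons, map_mul, h, mul_assoc]
    | false =>
      have hc := central_of_not φ hφ (hT t List.mem_cons_self) hm
      refine ⟨z * φ t, mul_mem hz hc, ?_⟩
      rw [M_cons_false φ hm, List.prod_cons, map_mul, h, ← mul_assoc]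
      have h9 := (Subgroup.mem_center_iff.1 hc) ((M φ T).prod * z)
      rw [mul_assoc] at h9
      rw [mul_assoc]
      exact h9.symm

lemma cj_center {g z : K} (hz : z ∈ Subgroup.center K) : cj g z = z := by
  have h8 := (Subgroup.mem_center_iff.1 hz) g
  simp only [cj]
  rw [h8, mul_inv_cancel_right]

lemma M_central {e : Bool → ℕ} (hφ : ∀ c, φ (gn c ^ e c) ∈ Subgroup.center K) (T : List F2)
    (hT : ∀ t ∈ T, Ty e t) (h : T.prod = 1) : (M φ T).prod ∈ Subgroup.center K := by
  obtain ⟨z, hz, h1⟩ := M_prod φ hφ T hT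
  rw [h, map_one] at h1
  have : (M φ T).prod = z⁻¹ := by
    rw [eq_inv_iff_mul_eq_one]; exact h1.symm
  rw [this]
  exact inv_mem hz

/-- products along a row -/
lemma row_prod (j k : ℕ) :
    φ ((gn false) ^ j) * (row φ true j k).prod = φ (gn true ^ k * gn false ^ (k + j)) := by
  induction k generalizing j with
  | zero => simp [row]
  | succ k ih =>
    rw [row_succ, List.prod_cons]
    have h1 := ih (j + 1)
    have h2 : (row φ true (j + 1) k).prod = φ ((gn false) ^ (j + 1))⁻¹ *
        φ (gn true ^ k * gn false ^ (k + (j + 1))) := by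
      rw [← h1, map_inv]; group
    rw [h2, ← map_mul, ← map_mul, ← map_mul]
    congr 1
    simp only [cj, Bool.not_true]
    rw [pow_succ' (gn true) k, show k + 1 + j = k + (j + 1) by ring, inv_pow]
    group

/-- the standard tuple generates -/
lemma Ls_gen {q : ℕ} (hK : φ (gn true ^ (q + 1) * gn false ^ q) = 1)
    (hgen : Subgroup.closure {φ (gn true), φ (gn false)} = ⊤) {S : List K}
    (hS : ∀ t ∈ Ls φ q, t ∈ S) (g : K) : g ∈ Subgroup.closure {t | t ∈ S} := by
  have h0 : φ (gn true * gn false) ∈ Subgroup.closure {t | t ∈ S} := by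
    apply Subgroup.subset_closure
    exact hS _ (by simp [Ls])
  have hrow : ∀ t ∈ row φ true 0 (q + 1), t ∈ Subgroup.closure {t | t ∈ S} := by
    intro t ht
    apply Subgroup.subset_closure
    apply hS
    rw [row_succ] at ht
    rcases List.mem_cons.1 ht with h | h
    · rw [h]
      simp [Ls, cj]
    · simp only [Ls, L0]
      exact List.mem_cons_of_mem _ (List.mem_append_left _ h)
  have hp : (row φ true 0 (q + 1)).prod ∈ Subgroup.closure {t | t ∈ S} :=
    Subgroup.list_prod_mem _ hrow
  have h1 := row_prod φ 0 (q + 1)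
  simp only [pow_zero, map_one, one_mul, add_zero] at h1
  rw [h1] at hp
  have h2 : φ (gn false) ∈ Subgroup.closure {t | t ∈ S} := by
    have h3 : φ (gn true ^ (q + 1) * gn false ^ (q + 1)) = φ (gn false) := by
      rw [pow_succ (gn false), ← mul_assoc, map_mul, hK, one_mul]
    rwa [h3] at hp
  have h3 : φ (gn true) ∈ Subgroup.closure {t | t ∈ S} := by
    have h4 : φ (gn true) = φ (gn true * gn false) * (φ (gn false))⁻¹ := by
      rw [map_mul]; group
    rw [h4]
    exact mul_mem h0 (inv_mem h2)
  have h4 : Subgroup.closure {φ (gn true), φ (gn false)} ≤ Subgroup.closure {t | t ∈ S} := by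
    rw [Subgroup.closure_le]
    rintro y (rfl | rfl)
    · exact h3
    · exact h2
  rw [hgen] at h4
  exact h4 (Subgroup.mem_top g)

/-- tuples with trivial product -/
theorem std_of_prod_one {q : ℕ} (hq : 2 ≤ q)
    (hφ : ∀ c, φ (gn c ^ ex q c) ∈ Subgroup.center K)
    (hK : φ (gn true ^ (q + 1) * gn false ^ q) = 1)
    (hgen : Subgroup.closure {φ (gn true), φ (gn false)} = ⊤) :
    ∀ (n : ℕ) (T : List F2), (M φ T).length = n → (∀ t ∈ T, Ty (ex q) t) → T.prod = 1 →
      ∃ m : ℕ, HurwitzEquiv (M φ T) (List.replicate m (Ls φ q)).flatten := by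
  intro n
  induction n using Nat.strong_induction_on with
  | _ n ih =>
    intro T hn hT hprod
    by_cases hM : M φ T = []
    · exact ⟨0, by rw [hM]; exact HE.refl _⟩
    · -- there is a member of type `x y`
      obtain ⟨t, ht, hm⟩ : ∃ t ∈ T, isM t = true := by
        by_contra hcon
        push Not at hcon
        apply hM
        have : T.filter isM = [] := by
          rw [List.filter_eq_nil_iff]
          intro a ha
          exact hcon a ha
        simp [M, this]
      obtain ⟨U, V, rfl⟩ := List.append_of_mem ht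
      obtain ⟨g, rfl⟩ := (hT t (by simp)).isM hm
      have h1 : HurwitzEquiv (U ++ cj g (gn true * gn false) :: V)
          (cj g (gn true * gn false) :: V ++ U) := HE.rotate (by rw [hprod]; exact one_mem _)
      have h2 := M_he φ hφ h1 hT
      have hT1 : ∀ t ∈ cj g (gn true * gn false) :: V ++ U, Ty (ex q) t :=
        (HE.forall_iff (P := Ty (ex q)) (fun g x hx => hx.cj g) h1).1 hT
      have hp1 : (cj g (gn true * gn false) :: V ++ U).prod = 1 := by
        rw [← HE.prod_eq h1]; exact hprod
      -- conjugate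
      obtain ⟨T', a1, a2, a3⟩ := fills_L0 φ hq hφ ((V ++ U).map (cj g⁻¹)) (by
        intro t ht
        obtain ⟨s, hs, rfl⟩ := List.mem_map.1 ht
        exact (hT1 s (by rw [List.cons_append]; exact List.mem_cons_of_mem _ hs)).cj _) (by
        rw [prod_map_cj]
        rw [List.cons_append, List.prod_cons] at hp1
        have : (V ++ U).prod = (cj g (gn true * gn false))⁻¹ := by
          rw [eq_inv_iff_mul_eq_one, mul_eq_one_comm]
          exact hp1
        rw [this]
        simp only [cj, wd, Bool.not_true]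
        group)
      have h3 : HurwitzEquiv ((M φ (cj g (gn true * gn false) :: V ++ U)).map (cj (φ g⁻¹)))
          (Ls φ q ++ M φ T') := by
        rw [← M_map_cj, List.cons_append, List.map_cons, cj_mul, inv_mul_cancel, cj_one,
          M_cons_true φ (show isM (gn true * gn false) = true from isM_pair true)]
        exact HE.cons _ a3
      have hlen : (M φ T').length < n := by
        have h4 := HE.length_eq h3
        have h5 := HE.length_eq h2
        rw [List.length_map] at h4
        rw [← hn, h5, h4, List.length_append]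
        simp [Ls]
      obtain ⟨m, hm'⟩ := ih _ hlen T' rfl a1 a2
      refine ⟨m + 1, ?_⟩
      have h4 : HurwitzEquiv ((M φ (cj g (gn true * gn false) :: V ++ U)).map (cj (φ g⁻¹)))
          (List.replicate (m + 1) (Ls φ q)).flatten := by
        refine HE.trans h3 ?_
        rw [List.replicate_succ, List.flatten_cons]
        exact HE.append_left _ hm'
      have h5 := HE.map_cj (φ g) h4
      rw [map_cj_cj, ← map_mul, mul_inv_cancel, map_one, map_cj_one] at h5
      have hcen : ((List.replicate (m + 1) (Ls φ q)).flatten).prod ∈ Subgroup.center K := by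
        have h6 := HE.prod_eq h4
        rw [prod_map_cj] at h6
        have h7 := M_central φ hφ _ hT1 hp1
        rw [← h6, cj_center h7]
        exact h7
      have h6 := HE.conj_closure hcen (g := φ g) (Ls_gen φ hK hgen (by
        intro t ht
        rw [List.replicate_succ, List.flatten_cons]
        exact List.mem_append_left _ ht) _)
      exact HE.trans h2 (HE.trans h5 (HE.symm h6))

end

end Pool.Agent.Helper905_HF
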